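import Pool.Agent.Helper66.HE.HubS
import Pool.Agent.Helper70.HE.Final
import Pool.Agent.Helper17.HCC.LimE

/-! # Contraction of stars by a simple graph -/

open Set

namespace Pool.H66.TG

open Pool.H66.HC

universe u

variable {V : Type u}

/-- the theorem about four-edge-connected graphs, before the tour -/
theorem exists_good2 {G : SimpleGraph V} [Infinite V] (hlf : ∀ v, (G.neighborSet v).Finite)
    (h4 : Four G) (hc : Countable G.end) : ∃ H, Good2 G H := by
  obtain ⟨X, N, o, hS, hCof⟩ := Pool.H70.HE.exists_sys_of_hub hlf h4 hc (Pool.H66.HE.hubS h4)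
  obtain ⟨H, hH⟩ := Pool.H17.HCC.exists_lim hS h4
  exact ⟨H, Pool.H70.HE.Lim.good2 hlf h4 hc hS hCof hH⟩

/-- a choice of star centres -/
structure Ctr (G : SimpleGraph V) (c : V → V) : Prop where
  idem : ∀ v, c (c v) = c v
  adj : ∀ v, c v ≠ v → G.Adj v (c v)

/-- the blow-up: every vertex becomes a complete graph on five vertices, the edges to the centres
become five edges -/
def blow (G : SimpleGraph V) (c : V → V) : SimpleGraph (V × Fin 5) where
  Adj p q := (p.1 = q.1 ∧ p.2 ≠ q.2) ∨ (p.2 = 0 ∧ q.2 = 0 ∧ G.Adj p.1 q.1) ∨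
    (p.2 = q.2 ∧ p.1 ≠ q.1 ∧ (c p.1 = q.1 ∨ c q.1 = p.1))
  symm := ⟨by
    rintro p q (⟨h1, h2⟩ | ⟨h1, h2, h3⟩ | ⟨h1, h2, h3⟩)
    · exact Or.inl ⟨h1.symm, h2.symm⟩
    · exact Or.inr (Or.inl ⟨h2, h1, h3.symm⟩)
    · exact Or.inr (Or.inr ⟨h1.symm, h2.symm, h3.symm⟩)⟩
  loopless := ⟨by
    rintro p (⟨_, h2⟩ | ⟨_, _, h3⟩ | ⟨_, h2, _⟩)
    · exact h2 rfl
    · exact h3.ne rfl
    · exact h2 rfl⟩

variable {G : SimpleGraph V} {c : V → V}

lemma blow_proj (hc : Ctr G c) {p q : V × Fin 5} (h : (blow G c).Adj p q) :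
    p.1 = q.1 ∨ G.Adj p.1 q.1 := by
  rcases h with ⟨h1, _⟩ | ⟨_, _, h3⟩ | ⟨_, h2, h3 | h3⟩
  · exact Or.inl h1
  · exact Or.inr h3
  · right
    have := hc.adj p.1 (by rw [h3]; exact h2.symm)
    rwa [h3] at this
  · right
    have := hc.adj q.1 (by rw [h3]; exact h2)
    rw [h3] at this
    exact this.symm

lemma blow_clique (v : V) {i j : Fin 5} (h : i ≠ j) : (blow G c).Adj (v, i) (v, j) :=
  Or.inl ⟨rfl, h⟩

lemma blow_zero {u w : V} (h : G.Adj u w) : (blow G c).Adj (u, 0) (w, 0) :=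
  Or.inr (Or.inl ⟨rfl, rfl, h⟩)

lemma blow_lf (hc : Ctr G c) (hlf : ∀ v, (G.neighborSet v).Finite) (p : V × Fin 5) :
    ((blow G c).neighborSet p).Finite := by
  have h1 : ((insert p.1 (G.neighborSet p.1)) ×ˢ (univ : Set (Fin 5))).Finite :=
    ((hlf p.1).insert _).prod finite_univ
  refine h1.subset ?_
  intro q hq
  refine ⟨?_, mem_univ _⟩
  rcases blow_proj hc hq with h | h
  · exact Or.inl h.symm
  · exact Or.inr h

lemma fin5_cut : ∀ A : Finset (Fin 5), A.Nonempty → Aᶜ.Nonempty → 4 ≤ A.card * Aᶜ.card := by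
  decide

lemma blow_four (hcut : ∀ S : Set V, S.Nonempty → Sᶜ.Nonempty → (∀ v, c v ∈ S ↔ v ∈ S) →
    (prs G S Sᶜ).Finite → 4 ≤ ce G S Sᶜ) (hc : Ctr G c) : Four (blow G c) := by
  classical
  intro Z hZ hZc hfin
  by_cases h1 : ∃ v i j, (v, i) ∈ Z ∧ (v, j) ∉ Z
  · obtain ⟨v, i, j, hi, hj⟩ := h1
    let A : Finset (Fin 5) := Finset.univ.filter fun k => (v, k) ∈ Z
    have hA : A.Nonempty := ⟨i, by simp [A, hi]⟩
    have hA' : Aᶜ.Nonempty := ⟨j, by simp [A, hj]⟩
    have h2 := fin5_cut A hA hA'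
    rw [← Finset.card_product] at h2
    refine h2.trans ?_
    unfold ce
    rw [← Set.ncard_coe_finset]
    have hinj : Function.Injective
        (fun p : Fin 5 × Fin 5 => (((v, p.1), (v, p.2)) : (V × Fin 5) × (V × Fin 5))) := by
      intro p q hpq
      simp only [Prod.mk.injEq, true_and] at hpq
      exact Prod.ext hpq.1 hpq.2
    rw [← Set.ncard_image_of_injective _ hinj]
    apply Set.ncard_le_ncard _ hfin
    rintro _ ⟨p, hp, rfl⟩
    simp only [Finset.coe_product, Set.mem_prod, Finset.mem_coe, Finset.mem_compl,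
      Finset.mem_filter, Finset.mem_univ, true_and, A] at hp
    refine ⟨hp.1, hp.2, blow_clique v ?_⟩
    intro h
    rw [h] at hp
    exact hp.2 hp.1
  · push Not at h1
    have hall : ∀ v (i j : Fin 5), (v, i) ∈ Z → (v, j) ∈ Z := h1
    let S : Set V := {v | (v, 0) ∈ Z}
    have hS : S.Nonempty := by
      obtain ⟨⟨v, i⟩, hv⟩ := hZ
      exact ⟨v, hall v i 0 hv⟩
    have hSc : Sᶜ.Nonempty := by
      obtain ⟨⟨v, i⟩, hv⟩ := hZc
      exact ⟨v, fun h => hv (hall v 0 i h)⟩
    by_cases h2 : ∀ v, c v ∈ S ↔ v ∈ S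
    · have hinj : Function.Injective
          (fun p : V × V => (((p.1, 0), (p.2, 0)) : (V × Fin 5) × (V × Fin 5))) := by
        intro p q hpq
        simp only [Prod.mk.injEq, and_true] at hpq
        exact Prod.ext hpq.1 hpq.2
      have hsub : (fun p : V × V => (((p.1, 0), (p.2, 0)) : (V × Fin 5) × (V × Fin 5))) ''
          prs G S Sᶜ ⊆ prs (blow G c) Z Zᶜ := by
        rintro _ ⟨p, hp, rfl⟩
        exact ⟨hp.1, hp.2.1, blow_zero hp.2.2⟩
      have hf : (prs G S Sᶜ).Finite := Set.Finite.of_finite_image (hfin.subset hsub) hinj.injOn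
      refine (hcut S hS hSc h2 hf).trans ?_
      unfold ce
      rw [← Set.ncard_image_of_injective _ hinj]
      exact Set.ncard_le_ncard hsub hfin
    · push Not at h2
      obtain ⟨v, hv⟩ := h2
      -- the five parallel edges
      have hne : c v ≠ v := by
        intro h
        rw [h] at hv
        tauto
      have hadj : ∀ i : Fin 5, (blow G c).Adj (v, i) (c v, i) := fun i =>
        Or.inr (Or.inr ⟨rfl, hne.symm, Or.inl rfl⟩)
      unfold ce
      have h5 : (5 : ℕ) ≤ (prs (blow G c) Z Zᶜ).ncard := by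
        by_cases hvS : v ∈ S
        · have hcv : c v ∉ S := by tauto
          have hinj : Function.Injective
              (fun i : Fin 5 => (((v, i), (c v, i)) : (V × Fin 5) × (V × Fin 5))) := by
            intro i j hij
            simp only [Prod.mk.injEq, true_and] at hij
            exact hij.1
          have : (5 : ℕ) = ((fun i : Fin 5 => (((v, i), (c v, i)) :
              (V × Fin 5) × (V × Fin 5))) '' univ).ncard := by
            rw [Set.ncard_image_of_injective _ hinj, Set.ncard_univ]; simp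
          refine this.le.trans ?_
          apply Set.ncard_le_ncard _ hfin
          rintro _ ⟨i, _, rfl⟩
          exact ⟨hall v 0 i hvS, fun h => hcv (hall (c v) i 0 h), hadj i⟩
        · have hcv : c v ∈ S := by tauto
          have hinj : Function.Injective
              (fun i : Fin 5 => (((c v, i), (v, i)) : (V × Fin 5) × (V × Fin 5))) := by
            intro i j hij
            simp only [Prod.mk.injEq, true_and] at hij
            exact hij.1
          have : (5 : ℕ) = ((fun i : Fin 5 => (((c v, i), (v, i)) :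
              (V × Fin 5) × (V × Fin 5))) '' univ).ncard := by
            rw [Set.ncard_image_of_injective _ hinj, Set.ncard_univ]; simp
          refine this.le.trans ?_
          apply Set.ncard_le_ncard _ hfin
          rintro _ ⟨i, _, rfl⟩
          exact ⟨hall (c v) 0 i hcv, fun h => hvS (hall v i 0 h), (hadj i).symm⟩
      omega

/-- walks outside `L` lift -/
lemma blow_reach {L : Set V} {L' : Set (V × Fin 5)} (hL : ∀ p ∈ L', p.1 ∈ L) {u w : (Lᶜ : Set V)}
    (h : (G.induce Lᶜ).Reachable u w) (hu : (u.1, (0 : Fin 5)) ∈ L'ᶜ)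
    (hw : (w.1, (0 : Fin 5)) ∈ L'ᶜ) :
    ((blow G c).induce L'ᶜ).Reachable ⟨(u.1, 0), hu⟩ ⟨(w.1, 0), hw⟩ := by
  obtain ⟨p⟩ := h
  induction p with
  | nil => exact SimpleGraph.Reachable.refl _
  | @cons u x w hux p ih =>
    have hx : (x.1, (0 : Fin 5)) ∈ L'ᶜ := fun h => x.2 (hL _ h)
    refine SimpleGraph.Reachable.trans ?_ (ih hx hw)
    apply SimpleGraph.Adj.reachable
    exact blow_zero hux

/-- reachability outside a set in terms of first coordinates -/
lemma blow_proj_reach (hc : Ctr G c) {L : Set V} {L' : Set (V × Fin 5)}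
    (hL : ∀ v i, v ∈ L → (v, i) ∈ L') {p q : (L'ᶜ : Set (V × Fin 5))}
    (h : ((blow G c).induce L'ᶜ).Reachable p q) (hp : p.1.1 ∈ Lᶜ) (hq : q.1.1 ∈ Lᶜ) :
    (G.induce Lᶜ).Reachable ⟨p.1.1, hp⟩ ⟨q.1.1, hq⟩ := by
  obtain ⟨w⟩ := h
  induction w with
  | nil => exact SimpleGraph.Reachable.refl _
  | @cons p x q hpx w ih =>
    have hx : x.1.1 ∈ Lᶜ := fun h => x.2 (hL _ x.1.2 h)
    refine SimpleGraph.Reachable.trans ?_ (ih hx hq)
    rcases blow_proj hc hpx with h | h
    · have : (⟨p.1.1, hp⟩ : (Lᶜ : Set V)) = ⟨x.1.1, hx⟩ := Subtype.ext h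
      rw [this]
    · exact SimpleGraph.Adj.reachable h

end Pool.H66.TG
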