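import Pool.Agent.Helper66.TG.Blow

/-! # The ends of the blow-up -/

open Set SimpleGraph

namespace Pool.H66.TG

open Pool.H66.HC

universe u

variable {V : Type u} {G : SimpleGraph V} {c : V → V}

/-- the blow-up of a finite set -/
def K5 (K : Finset V) : Finset (V × Fin 5) := K ×ˢ Finset.univ

lemma mem_K5 {K : Finset V} {p : V × Fin 5} : p ∈ K5 K ↔ p.1 ∈ K := by
  simp [K5]

lemma K5_mono {K L : Finset V} (h : K ⊆ L) : K5 K ⊆ K5 L := fun p hp =>
  mem_K5.2 (h (mem_K5.1 hp))

lemma notMem_K5 {K : Finset V} {p : V × Fin 5} (h : p ∉ (K5 K : Set (V × Fin 5))) :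
    p.1 ∉ (K : Set V) := fun h' => h (mem_K5.2 h')

/-- components outside a blown up set -/
def mapc (hc : Ctr G c) (K : Finset V) :
    (blow G c).ComponentCompl (K5 K) → G.ComponentCompl K :=
  ComponentCompl.lift (fun _ hp => G.componentComplMk (notMem_K5 hp)) (by
    intro p q hp hq h
    rcases blow_proj hc h with h | h
    · congr 1
    · exact componentComplMk_eq_of_adj G _ _ h)

lemma mapc_mk (hc : Ctr G c) (K : Finset V) {p : V × Fin 5}
    (hp : p ∉ (K5 K : Set (V × Fin 5))) :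
    mapc hc K ((blow G c).componentComplMk hp) = G.componentComplMk (notMem_K5 hp) := rfl

/-- the end of `G` of an end of the blow-up -/
def eproj (hc : Ctr G c)
    (s : ∀ K : (Finset (V × Fin 5))ᵒᵖ, (blow G c).componentComplFunctor.obj K) :
    ∀ K : (Finset V)ᵒᵖ, G.componentComplFunctor.obj K :=
  fun K => mapc hc K.unop (s (Opposite.op (K5 K.unop)))

lemma eproj_mem (hc : Ctr G c)
    {s : ∀ K : (Finset (V × Fin 5))ᵒᵖ, (blow G c).componentComplFunctor.obj K}
    (hs : s ∈ (blow G c).end) : eproj hc s ∈ G.end := by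
  intro K L f
  have hle : L.unop ⊆ K.unop := CategoryTheory.leOfHom f.unop
  obtain ⟨p, hp, hpe⟩ := ComponentCompl.exists_eq_mk (s (Opposite.op (K5 K.unop)))
  have hf : (Opposite.op (K5 K.unop)) ⟶ (Opposite.op (K5 L.unop)) :=
    (CategoryTheory.homOfLE (K5_mono hle)).op
  have h2 := end_hom_mk_of_mk (G := blow G c) hs hf hp hpe.symm
  show ComponentCompl.hom (fun x hx => hle hx) (mapc hc K.unop (s (Opposite.op (K5 K.unop)))) =
    mapc hc L.unop (s (Opposite.op (K5 L.unop)))
  rw [h2, ← hpe]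
  rfl

lemma eproj_inj (hc : Ctr G c)
    {s t : ∀ K : (Finset (V × Fin 5))ᵒᵖ, (blow G c).componentComplFunctor.obj K}
    (hs : s ∈ (blow G c).end) (ht : t ∈ (blow G c).end) (h : eproj hc s = eproj hc t) :
    s = t := by
  classical
  funext K
  let L : Finset V := K.unop.image Prod.fst
  have hKL : K.unop ⊆ K5 L := fun p hp => mem_K5.2 (Finset.mem_image_of_mem _ hp)
  have hf : (Opposite.op (K5 L)) ⟶ K := (CategoryTheory.homOfLE hKL).op
  obtain ⟨p, hp, hpe⟩ := ComponentCompl.exists_eq_mk (s (Opposite.op (K5 L)))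
  obtain ⟨q, hq, hqe⟩ := ComponentCompl.exists_eq_mk (t (Opposite.op (K5 L)))
  have h1 : eproj hc s (Opposite.op L) = eproj hc t (Opposite.op L) := by rw [h]
  have h2 : G.componentComplMk (notMem_K5 hp) = G.componentComplMk (notMem_K5 hq) := by
    have e1 : eproj hc s (Opposite.op L) = G.componentComplMk (notMem_K5 hp) := by
      show mapc hc L (s (Opposite.op (K5 L))) = _
      rw [← hpe]; rfl
    have e2 : eproj hc t (Opposite.op L) = G.componentComplMk (notMem_K5 hq) := by
      show mapc hc L (t (Opposite.op (K5 L))) = _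
      rw [← hqe]; rfl
    rw [← e1, ← e2, h1]
  have h3 : s (Opposite.op (K5 L)) = t (Opposite.op (K5 L)) := by
    rw [← hpe, ← hqe]
    have hreach := SimpleGraph.ConnectedComponent.exact h2
    have hp0 : (p.1, (0 : Fin 5)) ∈ ((K5 L : Finset (V × Fin 5)) : Set (V × Fin 5))ᶜ :=
      fun h' => hp (mem_K5.2 (mem_K5 (p := (p.1, 0)).1 h'))
    have hq0 : (q.1, (0 : Fin 5)) ∈ ((K5 L : Finset (V × Fin 5)) : Set (V × Fin 5))ᶜ :=
      fun h' => hq (mem_K5.2 (mem_K5 (p := (q.1, 0)).1 h'))
    have h4 := blow_reach (G := G) (c := c) (L := (L : Set V))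
      (L' := ((K5 L : Finset (V × Fin 5)) : Set (V × Fin 5)))
      (fun r hr => mem_K5.1 hr) hreach hp0 hq0
    have hside : ∀ (r : V × Fin 5) (hr : r ∉ ((K5 L : Finset (V × Fin 5)) : Set (V × Fin 5)))
        (hr0 : (r.1, (0 : Fin 5)) ∈ ((K5 L : Finset (V × Fin 5)) : Set (V × Fin 5))ᶜ),
        ((blow G c).induce ((K5 L : Finset (V × Fin 5)) : Set (V × Fin 5))ᶜ).Reachable
          ⟨r, hr⟩ ⟨(r.1, 0), hr0⟩ := by
      intro r hr hr0
      by_cases h0 : r.2 = 0
      · have : r = (r.1, 0) := Prod.ext rfl h0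
        have h5 : (⟨r, hr⟩ : (((K5 L : Finset (V × Fin 5)) : Set (V × Fin 5))ᶜ :
            Set (V × Fin 5))) = ⟨(r.1, 0), hr0⟩ := Subtype.ext this
        rw [h5]
      · exact SimpleGraph.Adj.reachable (Or.inl ⟨rfl, h0⟩)
    exact SimpleGraph.ConnectedComponent.sound
      (((hside p hp hp0).trans h4).trans (hside q hq hq0).symm)
  have e1 := hs hf
  have e2 := ht hf
  rw [← e1, ← e2, h3]

theorem blow_ends (hc : Ctr G c) (h : Countable G.end) : Countable (blow G c).end := by
  have hinj : Function.Injective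
      (fun s : (blow G c).end => (⟨eproj hc s.1, eproj_mem hc s.2⟩ : G.end)) := by
    intro s t hst
    exact Subtype.ext (eproj_inj hc s.2 t.2 (congrArg Subtype.val hst))
  exact hinj.countable

end Pool.H66.TG
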