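import Pool.Agent.Helper66.TG.ThmB
import Pool.Agent.Helper66.TG.End

/-! # Consequences of the four-connectedness of the line graph -/

open Set

namespace Pool.H66.TG

open Pool.H66.HC

universe u

/-- `H` has more than `k` vertices, and `H - S` is connected for every set `S` of fewer than `k`
vertices -/
def KConn {W : Type u} (k : ℕ) (H : SimpleGraph W) : Prop :=
  (k : ℕ∞) < (univ : Set W).encard ∧ ∀ S : Set W, S.encard < k → (H.induce Sᶜ).Connected

variable {V : Type u} {G : SimpleGraph V}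

lemma nb_nonempty [Infinite V] (hG : G.Connected) (v : V) : ∃ w, G.Adj v w := by
  obtain ⟨w, hw⟩ := exists_ne v
  obtain ⟨p⟩ := hG.preconnected v w
  cases p with
  | nil => exact absurd rfl hw
  | cons h _ => exact ⟨_, h⟩

/-- there is an edge outside a finite set -/
lemma edge_out [Infinite V] (hG : G.Connected) (hlf : ∀ v, (G.neighborSet v).Finite)
    {S : Set V} (hS : S.Finite) : ∃ u w, G.Adj u w ∧ u ∉ S ∧ w ∉ S := by
  have h1 : (S ∪ ⋃ v ∈ S, G.neighborSet v).Finite := hS.union (hS.biUnion fun v _ => hlf v)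
  obtain ⟨u, hu⟩ := h1.exists_notMem
  obtain ⟨w, hw⟩ := nb_nonempty hG u
  refine ⟨u, w, hw, fun h => hu (Or.inl h), fun h => hu (Or.inr ?_)⟩
  exact mem_biUnion h hw.symm

/-- cuts with an edge on both sides are large -/
lemma cut4 {k : ℕ} (hK : KConn k G.lineGraph) {S : Set V} (hfin : (cutE G S).Finite)
    (h1 : ∃ u w, G.Adj u w ∧ u ∈ S ∧ w ∈ S) (h2 : ∃ u w, G.Adj u w ∧ u ∉ S ∧ w ∉ S) :
    k ≤ (cutE G S).ncard := by
  by_contra hcon
  push Not at hcon
  have h3 : (cutE G S).encard < k := by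
    rw [← hfin.cast_ncard_eq]
    exact_mod_cast hcon
  have h4 := hK.2 _ h3
  obtain ⟨u, w, huw, hu, hw⟩ := h1
  obtain ⟨u', w', huw', hu', hw'⟩ := h2
  have hf : (⟨s(u, w), huw⟩ : G.edgeSet) ∈ (cutE G S)ᶜ := by
    intro h
    rw [mem_cutE_iff (u := u) (v := w) rfl] at h
    exact h (iff_of_true hu hw)
  have hg : (⟨s(u', w'), huw'⟩ : G.edgeSet) ∈ (cutE G S)ᶜ := by
    intro h
    rw [mem_cutE_iff (u := u') (v := w') rfl] at h
    exact h (iff_of_false hu' hw')
  obtain ⟨p⟩ := h4.preconnected ⟨_, hf⟩ ⟨_, hg⟩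
  have key : ∀ (e f : ((cutE G S)ᶜ : Set G.edgeSet))
      (p : (G.lineGraph.induce (cutE G S)ᶜ).Walk e f), (∀ x ∈ e.1.1, x ∈ S) →
      ∀ x ∈ f.1.1, x ∈ S := by
    intro e f p
    induction p with
    | nil => exact id
    | @cons e g f heg p ih =>
      intro he
      apply ih
      have hadj : G.lineGraph.Adj e.1 g.1 := heg
      rw [SimpleGraph.lineGraph_adj_iff_exists] at hadj
      obtain ⟨_, z, hz, hz'⟩ := hadj
      intro x hx
      have hzS := he z hz
      by_contra hxS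
      apply g.2
      have hne : z ≠ x := fun h => hxS (h ▸ hzS)
      have hgs : g.1.1 = s(z, x) := (Sym2.mem_and_mem_iff hne).1 ⟨hz', hx⟩
      exact ⟨z, hzS, x, hxS, hgs⟩
  have h5 := key _ _ p (by
    intro x hx
    rcases Sym2.mem_iff.1 hx with rfl | rfl
    · exact hu
    · exact hw) u' (by simp)
  exact hu' h5

/-- the cut of a finite set is counted by its vertices -/
lemma cutE_le (hlf : ∀ v, (G.neighborSet v).Finite) (S : Finset V) :
    (cutE G (S : Set V)).Finite ∧
      (cutE G (S : Set V)).ncard ≤ ∑ x ∈ S, (G.neighborSet x \ S).ncard := by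
  classical
  have hsub : (Subtype.val '' cutE G (S : Set V)) ⊆
      ⋃ x ∈ S, (fun w => s(x, w)) '' (G.neighborSet x \ S) := by
    rintro _ ⟨f, ⟨u, hu, w, hw, huw⟩, rfl⟩
    simp only [mem_iUnion]
    refine ⟨u, hu, w, ⟨?_, hw⟩, huw.symm⟩
    have := f.2
    rw [huw] at this
    exact this
  have hfin : ∀ x, ((fun w => s(x, w)) '' (G.neighborSet x \ S)).Finite := fun x =>
    ((hlf x).diff).image _
  have hfin2 : (⋃ x ∈ S, (fun w => s(x, w)) '' (G.neighborSet x \ S)).Finite :=
    S.finite_toSet.biUnion fun x _ => hfin x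
  refine ⟨Set.Finite.of_finite_image (hfin2.subset hsub) Subtype.val_injective.injOn, ?_⟩
  rw [← Set.ncard_image_of_injective _ Subtype.val_injective]
  refine (Set.ncard_le_ncard hsub hfin2).trans ?_
  have key : ∀ R : Finset V, (⋃ x ∈ R, (fun w => s(x, w)) '' (G.neighborSet x \ S)).ncard ≤
      ∑ x ∈ R, (G.neighborSet x \ S).ncard := by
    intro R
    induction R using Finset.induction_on with
    | empty => simp
    | insert a R ha ih =>
      rw [Finset.sum_insert ha, Finset.set_biUnion_insert]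
      refine (Set.ncard_union_le _ _).trans ?_
      exact add_le_add (Set.ncard_image_le ((hlf a).diff)) ih
  exact key S

/-- adjacent vertices have large degrees -/
lemma deg_add [Infinite V] (hG : G.Connected) (hlf : ∀ v, (G.neighborSet v).Finite) {k : ℕ}
    (hK : KConn k G.lineGraph) {u w : V} (h : G.Adj u w) :
    k + 2 ≤ (G.neighborSet u).ncard + (G.neighborSet w).ncard := by
  classical
  obtain ⟨h1, h2⟩ := cutE_le hlf {u, w}
  have h3 := cut4 hK h1 ⟨u, w, h, by simp, by simp⟩ (by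
    obtain ⟨a, d, had, ha, hd⟩ := edge_out hG hlf (Finset.finite_toSet ({u, w} : Finset V))
    exact ⟨a, d, had, ha, hd⟩)
  rw [Finset.sum_pair h.ne] at h2
  have h4 : (G.neighborSet u \ (({u, w} : Finset V) : Set V)).ncard + 1 ≤
      (G.neighborSet u).ncard := by
    have h5 : G.neighborSet u \ (({u, w} : Finset V) : Set V) ⊆ G.neighborSet u \ {w} := by
      rintro x ⟨hx, hx'⟩
      refine ⟨hx, fun h' => hx' ?_⟩
      rw [mem_singleton_iff] at h'
      simp [h']
    have h6 := Set.ncard_le_ncard h5 ((hlf u).diff)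
    have h7 := Set.ncard_diff_singleton_add_one (show w ∈ G.neighborSet u from h) (hlf u)
    omega
  have h5 : (G.neighborSet w \ (({u, w} : Finset V) : Set V)).ncard + 1 ≤
      (G.neighborSet w).ncard := by
    have h5 : G.neighborSet w \ (({u, w} : Finset V) : Set V) ⊆ G.neighborSet w \ {u} := by
      rintro x ⟨hx, hx'⟩
      refine ⟨hx, fun h' => hx' ?_⟩
      rw [mem_singleton_iff] at h'
      simp [h']
    have h6 := Set.ncard_le_ncard h5 ((hlf w).diff)
    have h7 := Set.ncard_diff_singleton_add_one (show u ∈ G.neighborSet w from h.symm) (hlf w)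
    omega
  omega

/-- a triangle has a vertex of degree at least four -/
lemma tri_deg [Infinite V] (hG : G.Connected) (hlf : ∀ v, (G.neighborSet v).Finite)
    (hK : KConn 4 G.lineGraph) {u v w : V} (h : IsTri G u v w)
    (hu : (G.neighborSet u).ncard = 3) (hv : (G.neighborSet v).ncard = 3)
    (hw : (G.neighborSet w).ncard = 3) : False := by
  classical
  obtain ⟨h1, h2⟩ := cutE_le hlf {u, v, w}
  have h3 := cut4 hK h1 ⟨u, v, h.ab, by simp, by simp⟩ (by
    obtain ⟨a, d, had, ha, hd⟩ := edge_out hG hlf (Finset.finite_toSet ({u, v, w} : Finset V))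
    exact ⟨a, d, had, ha, hd⟩)
  have key : ∀ x y z : V, G.Adj x y → G.Adj x z → y ≠ z → (G.neighborSet x).ncard = 3 →
      y ∈ ({u, v, w} : Finset V) → z ∈ ({u, v, w} : Finset V) →
      (G.neighborSet x \ (({u, v, w} : Finset V) : Set V)).ncard ≤ 1 := by
    intro x y z hy hz hyz h3 hyS hzS
    have h5 : G.neighborSet x \ (({u, v, w} : Finset V) : Set V) ⊆
        (G.neighborSet x \ {y}) \ {z} := by
      rintro a ⟨ha, ha'⟩
      refine ⟨⟨ha, fun h' => ha' ?_⟩, fun h' => ha' ?_⟩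
      · rw [mem_singleton_iff] at h'
        rw [h']
        exact Finset.mem_coe.2 hyS
      · rw [mem_singleton_iff] at h'
        rw [h']
        exact Finset.mem_coe.2 hzS
    have h6 := Set.ncard_le_ncard h5 ((hlf x).diff.diff)
    have h7 := Set.ncard_diff_singleton_add_one (show y ∈ G.neighborSet x from hy) (hlf x)
    have h8 := Set.ncard_diff_singleton_add_one
      (show z ∈ G.neighborSet x \ {y} from ⟨hz, fun h => hyz h.symm⟩) ((hlf x).diff)
    omega
  have hn1 : u ∉ ({v, w} : Finset V) := by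
    simp only [Finset.mem_insert, Finset.mem_singleton, not_or]
    exact ⟨h.ab.ne, h.ad.ne⟩
  have hn2 : v ∉ ({w} : Finset V) := by
    simp only [Finset.mem_singleton]
    exact h.bd.ne
  rw [Finset.sum_insert hn1, Finset.sum_insert hn2, Finset.sum_singleton] at h2
  have k1 := key u v w h.ab h.ad h.bd.ne hu (by simp) (by simp)
  have k2 := key v u w h.ab.symm h.bd h.ad.ne hv (by simp) (by simp)
  have k3 := key w u v h.ad.symm h.bd.symm h.ab.ne hw (by simp) (by simp)
  omega

/-- pairs against edges -/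
lemma cutE_prs {S : Set V} (hfin : (prs G S Sᶜ).Finite) :
    (cutE G S).Finite ∧ (cutE G S).ncard ≤ ce G S Sᶜ := by
  have hsub : (Subtype.val '' cutE G S) ⊆ (fun p : V × V => s(p.1, p.2)) '' prs G S Sᶜ := by
    rintro _ ⟨f, ⟨u, hu, w, hw, huw⟩, rfl⟩
    refine ⟨(u, w), ⟨hu, hw, ?_⟩, huw.symm⟩
    have := f.2
    rw [huw] at this
    exact this
  refine ⟨Set.Finite.of_finite_image ((hfin.image _).subset hsub)
    Subtype.val_injective.injOn, ?_⟩
  rw [← Set.ncard_image_of_injective _ Subtype.val_injective]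
  exact (Set.ncard_le_ncard hsub (hfin.image _)).trans (Set.ncard_image_le hfin)

/-- the cuts along the stars -/
lemma hcut [Infinite V] (hlf : ∀ v, (G.neighborSet v).Finite)
    (hK : KConn 4 G.lineGraph) {c : V → V} (hc : Ctr G c)
    (hdeg : ∀ v, c v = v → 4 ≤ (G.neighborSet v).ncard) (S : Set V) (hS : S.Nonempty)
    (hSc : Sᶜ.Nonempty) (hcl : ∀ v, c v ∈ S ↔ v ∈ S) (hfin : (prs G S Sᶜ).Finite) :
    4 ≤ ce G S Sᶜ := by
  classical
  by_cases h1 : ∃ u w, G.Adj u w ∧ u ∈ S ∧ w ∈ S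
  · by_cases h2 : ∃ u w, G.Adj u w ∧ u ∉ S ∧ w ∉ S
    · obtain ⟨h3, h4⟩ := cutE_prs hfin
      exact (cut4 hK h3 h1 h2).trans h4
    · push Not at h2
      obtain ⟨v, hv⟩ := hSc
      have hcv : c v = v := by
        by_contra hne
        have hcv : c v ∉ S := fun h => hv ((hcl v).1 h)
        exact hcv (h2 v (c v) (hc.adj v hne) hv)
      refine (hdeg v hcv).trans ?_
      unfold ce
      have hinj : Function.Injective (fun w : V => (w, v)) := by
        intro a b hab
        exact (Prod.mk.injEq _ _ _ _ ▸ hab).1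
      rw [← Set.ncard_image_of_injective _ hinj]
      apply Set.ncard_le_ncard _ hfin
      rintro _ ⟨w, hw, rfl⟩
      exact ⟨h2 v w hw hv, hv, hw.symm⟩
  · push Not at h1
    obtain ⟨v, hv⟩ := hS
    have hcv : c v = v := by
      by_contra hne
      exact h1 v (c v) (hc.adj v hne) hv ((hcl v).2 hv)
    refine (hdeg v hcv).trans ?_
    unfold ce
    have hinj : Function.Injective (fun w : V => (v, w)) := by
      intro a b hab
      exact (Prod.mk.injEq _ _ _ _ ▸ hab).2
    rw [← Set.ncard_image_of_injective _ hinj]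
    apply Set.ncard_le_ncard _ hfin
    rintro _ ⟨w, hw, rfl⟩
    exact ⟨hv, h1 v w hw hv, hw⟩

/-- the choice of the centres and of the triangles -/
lemma exists_cy [Infinite V] (hG : G.Connected) (hlf : ∀ v, (G.neighborSet v).Finite)
    (hK : KConn 4 G.lineGraph)
    (h3 : ∀ v, (G.neighborSet v).ncard = 3 → ∃ a d, G.Adj v a ∧ G.Adj v d ∧ G.Adj a d) :
    ∃ c y : V → V, ∀ v, (4 ≤ (G.neighborSet v).ncard ∧ c v = v) ∨
      ((G.neighborSet v).ncard = 3 ∧ IsTri G v (y v) (c v) ∧
        4 ≤ (G.neighborSet (c v)).ncard ∧ 3 ≤ (G.neighborSet (y v)).ncard) ∨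
      ((G.neighborSet v).ncard ≤ 2 ∧ G.Adj v (c v) ∧ 4 ≤ (G.neighborSet (c v)).ncard) := by
  have key : ∀ v, ∃ c y : V, (4 ≤ (G.neighborSet v).ncard ∧ c = v) ∨
      ((G.neighborSet v).ncard = 3 ∧ IsTri G v y c ∧
        4 ≤ (G.neighborSet c).ncard ∧ 3 ≤ (G.neighborSet y).ncard) ∨
      ((G.neighborSet v).ncard ≤ 2 ∧ G.Adj v c ∧ 4 ≤ (G.neighborSet c).ncard) := by
    intro v
    rcases lt_trichotomy (G.neighborSet v).ncard 3 with h | h | h
    · obtain ⟨w, hw⟩ := nb_nonempty hG v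
      have := deg_add hG hlf hK hw
      exact ⟨w, v, Or.inr (Or.inr ⟨by omega, hw, by omega⟩)⟩
    · obtain ⟨a, d, ha, hd, had⟩ := h3 v h
      have e1 := deg_add hG hlf hK ha
      have e2 := deg_add hG hlf hK hd
      by_cases h4 : 4 ≤ (G.neighborSet d).ncard
      · exact ⟨d, a, Or.inr (Or.inl ⟨h, ⟨ha, had, hd⟩, h4, by omega⟩)⟩
      · by_cases h5 : 4 ≤ (G.neighborSet a).ncard
        · exact ⟨a, d, Or.inr (Or.inl ⟨h, ⟨hd, had.symm, ha⟩, h5, by omega⟩)⟩
        · exact (tri_deg hG hlf hK (u := v) (v := a) (w := d) ⟨ha, had, hd⟩ h (by omega)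
            (by omega)).elim
    · exact ⟨v, v, Or.inl ⟨h, rfl⟩⟩
  choose c y hcy using key
  exact ⟨c, y, hcy⟩

/-- **Main theorem.** -/
theorem main [Infinite V] (hG : G.Connected) (hlf : ∀ v, (G.neighborSet v).Finite)
    (hK : KConn 4 G.lineGraph)
    (h3 : ∀ v, (G.neighborSet v).ncard = 3 → ∃ a d, G.Adj v a ∧ G.Adj v d ∧ G.Adj a d)
    (hends : Countable G.end) : HasHamiltonCircle G.lineGraph := by
  classical
  obtain ⟨c, y, hcy⟩ := exists_cy hG hlf hK h3
  let D : Set V := {v | (G.neighborSet v).ncard = 3}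
  have hc : Ctr G c := by
    refine ⟨?_, ?_⟩
    · intro v
      have h4 : 4 ≤ (G.neighborSet (c v)).ncard := by
        rcases hcy v with ⟨h1, h2⟩ | ⟨_, _, h, _⟩ | ⟨_, _, h⟩
        · rw [h2]; exact h1
        · exact h
        · exact h
      rcases hcy (c v) with ⟨_, h⟩ | ⟨h, _⟩ | ⟨h, _⟩
      · exact h
      · omega
      · omega
    · intro v hv
      rcases hcy v with ⟨_, h⟩ | ⟨_, h, _⟩ | ⟨_, h, _⟩
      · exact absurd h hv
      · exact h.ad
      · exact h
  have hdeg : ∀ v, c v = v → 4 ≤ (G.neighborSet v).ncard := by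
    intro v hv
    rcases hcy v with ⟨h, _⟩ | ⟨_, _, h, _⟩ | ⟨_, _, h⟩
    · exact h
    · rwa [hv] at h
    · rwa [hv] at h
  have hfix : ∀ v, 4 ≤ (G.neighborSet v).ncard → c v = v := by
    intro v hv
    rcases hcy v with ⟨_, h⟩ | ⟨h, _⟩ | ⟨h, _⟩
    · exact h
    · omega
    · omega
  have hB4 : Four (blow G c) := blow_four (hcut hlf hK hc hdeg) hc
  have hBe : Countable (blow G c).end := blow_ends hc hends
  have hBlf := blow_lf hc hlf
  have : Infinite (V × Fin 5) := inferInstance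
  obtain ⟨H, hH⟩ := exists_good2 hBlf hB4 hBe
  obtain ⟨T', hT'1, hT'2⟩ := exists_even hH
  have hT'ev : Ev (blow G c) T' := fun X hX => hT'2 X hX
  have hT0 := T0_even hc hlf hT'ev
  have hD : ∀ v ∈ D, IsTri G v (y v) (c v) ∧ 3 ≤ (G.neighborSet (y v)).ncard := by
    intro v hv
    have hv' : (G.neighborSet v).ncard = 3 := hv
    rcases hcy v with ⟨h, _⟩ | ⟨_, h, _, h'⟩ | ⟨h, _⟩
    · omega
    · exact ⟨h, h'⟩
    · omega
  obtain ⟨T, hT1, hT2, hT3⟩ := tri_all D y c (fun v hv => (hD v hv).1) hT0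
  have hS : Sys G c y D H T := by
    refine ⟨hlf, hc, hH, fun v hv => (hD v hv).1, ?_, hT1, hT3, ?_, ?_, ?_⟩
    · intro v hv
      have := (hD v hv).2
      by_cases h : (G.neighborSet (y v)).ncard = 3
      · exact Or.inl h
      · exact Or.inr (hfix _ (by omega))
    · intro v h1 h2
      by_contra hcon
      have h3' : (G.neighborSet v).ncard ≠ 3 := h2
      exact h1 (hfix v (by omega))
    · intro u w h
      have := deg_add hG hlf hK h
      by_cases h1 : 4 ≤ (G.neighborSet u).ncard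
      · exact Or.inl (Or.inl (hfix u h1))
      · by_cases h2 : 4 ≤ (G.neighborSet w).ncard
        · exact Or.inr (Or.inl (hfix w h2))
        · exact Or.inl (Or.inr (show (G.neighborSet u).ncard = 3 by omega))
    · intro u w h hHadj hcc
      by_cases hex : ∃ v ∈ D, (⟨s(u, w), h⟩ : G.edgeSet) ∈ tE G v (y v) (c v)
      · exact Or.inr hex
      · left
        push Not at hex
        rw [hT2 _ hex]
        left
        refine ⟨?_, ?_⟩
        · intro a d had
          rcases Sym2.eq_iff.1 had with ⟨rfl, rfl⟩ | ⟨rfl, rfl⟩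
          · exact hcc
          · exact hcc.symm
        · apply hT'1
          rw [cop_eq (u := u) (w := w) rfl]
          exact hHadj
  refine theoremB hS hG.preconnected ?_
  -- three edges
  obtain ⟨a1, a2, ha, _, _⟩ := edge_out hG hlf (S := ∅) finite_empty
  obtain ⟨b1, b2, hb, hb1, hb2⟩ := edge_out hG hlf (S := {a1, a2}) (Set.toFinite _)
  obtain ⟨d1, d2, hd, hd1, hd2⟩ := edge_out hG hlf (S := {a1, a2, b1, b2}) (Set.toFinite _)
  simp only [mem_insert_iff, mem_singleton_iff, not_or] at hb1 hb2 hd1 hd2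
  refine ⟨⟨s(a1, a2), ha⟩, ⟨s(b1, b2), hb⟩, ⟨s(d1, d2), hd⟩, ?_, ?_, ?_⟩
  · intro h
    rcases Sym2.eq_iff.1 (congrArg Subtype.val h) with ⟨h1, _⟩ | ⟨h1, _⟩
    · exact hb1.1 h1.symm
    · exact hb2.1 h1.symm
  · intro h
    rcases Sym2.eq_iff.1 (congrArg Subtype.val h) with ⟨h1, _⟩ | ⟨h1, _⟩
    · exact hd1.2.2.1 h1.symm
    · exact hd2.2.2.1 h1.symm
  · intro h
    rcases Sym2.eq_iff.1 (congrArg Subtype.val h) with ⟨h1, _⟩ | ⟨h1, _⟩
    · exact hd1.1 h1.symm
    · exact hd2.1 h1.symm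

end Pool.H66.TG
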