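import Pool.Agent.Helper66.TG.Par

/-! # Rerouting along triangles -/

open Set

namespace Pool.H66.TG

open Pool.H66.HC

universe u

variable {V : Type u} {G : SimpleGraph V}

/-- a triangle -/
structure IsTri (G : SimpleGraph V) (a b d : V) : Prop where
  ab : G.Adj a b
  bd : G.Adj b d
  ad : G.Adj a d

/-- the three edges of a triangle -/
def tE (G : SimpleGraph V) (a b d : V) : Set G.edgeSet :=
  {e | e.1 = s(a, b) ∨ e.1 = s(b, d) ∨ e.1 = s(a, d)}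

lemma tri_ne {a b d : V} (h : IsTri G a b d) :
    s(a, b) ≠ s(b, d) ∧ s(a, b) ≠ s(a, d) ∧ s(b, d) ≠ s(a, d) := by
  refine ⟨?_, ?_, ?_⟩
  · intro h1
    rcases Sym2.eq_iff.1 h1 with ⟨h2, _⟩ | ⟨h2, _⟩
    · exact h.ab.ne h2
    · exact h.ad.ne h2
  · intro h1
    rcases Sym2.eq_iff.1 h1 with ⟨_, h2⟩ | ⟨h2, _⟩
    · exact h.bd.ne h2
    · exact h.ad.ne h2
  · intro h1
    rcases Sym2.eq_iff.1 h1 with ⟨h2, _⟩ | ⟨h2, _⟩
    · exact h.ab.ne h2.symm
    · exact h.bd.ne h2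

open Classical in
lemma tE_eq {a b d : V} (h : IsTri G a b d) : tE G a b d =
    (({⟨s(a, b), h.ab⟩, ⟨s(b, d), h.bd⟩, ⟨s(a, d), h.ad⟩} : Finset G.edgeSet) :
      Set G.edgeSet) := by
  ext e
  simp only [tE, mem_ofPred_eq, Finset.coe_insert, Finset.coe_singleton, mem_insert_iff,
    mem_singleton_iff, Subtype.ext_iff]

lemma tE_finite {a b d : V} (h : IsTri G a b d) : (tE G a b d).Finite := by
  rw [tE_eq h]
  exact Finset.finite_toSet _

lemma tE_ncard {a b d : V} (h : IsTri G a b d) : (tE G a b d).ncard = 3 := by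
  classical
  obtain ⟨h1, h2, h3⟩ := tri_ne h
  rw [tE_eq h, Set.ncard_coe_finset]
  rw [Finset.card_insert_of_notMem, Finset.card_insert_of_notMem, Finset.card_singleton]
  · simp only [Finset.mem_singleton, Subtype.ext_iff]
    exact h3
  · simp only [Finset.mem_insert, Finset.mem_singleton, Subtype.ext_iff, not_or]
    exact ⟨h1, h2⟩

lemma tE_even {a b d : V} (h : IsTri G a b d) (X : Set V) :
    Even (tE G a b d ∩ cutE G X).ncard := by
  classical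
  obtain ⟨h1, h2, h3⟩ := tri_ne h
  have e1 : tE G a b d ∩ cutE G X =
      ((({⟨s(a, b), h.ab⟩, ⟨s(b, d), h.bd⟩, ⟨s(a, d), h.ad⟩} : Finset G.edgeSet).filter
        fun e => e ∈ cutE G X : Finset G.edgeSet) : Set G.edgeSet) := by
    rw [Finset.coe_filter, tE_eq h]
    rfl
  rw [e1, Set.ncard_coe_finset, Finset.card_filter]
  have n1 : (⟨s(a, b), h.ab⟩ : G.edgeSet) ∉
      ({⟨s(b, d), h.bd⟩, ⟨s(a, d), h.ad⟩} : Finset G.edgeSet) := by
    simp only [Finset.mem_insert, Finset.mem_singleton, Subtype.ext_iff, not_or]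
    exact ⟨h1, h2⟩
  have n2 : (⟨s(b, d), h.bd⟩ : G.edgeSet) ∉ ({⟨s(a, d), h.ad⟩} : Finset G.edgeSet) := by
    simp only [Finset.mem_singleton, Subtype.ext_iff]
    exact h3
  rw [Finset.sum_insert n1, Finset.sum_insert n2, Finset.sum_singleton]
  have c1 : (⟨s(a, b), h.ab⟩ : G.edgeSet) ∈ cutE G X ↔ ¬ (a ∈ X ↔ b ∈ X) := mem_cutE_iff rfl
  have c2 : (⟨s(b, d), h.bd⟩ : G.edgeSet) ∈ cutE G X ↔ ¬ (b ∈ X ↔ d ∈ X) := mem_cutE_iff rfl
  have c3 : (⟨s(a, d), h.ad⟩ : G.edgeSet) ∈ cutE G X ↔ ¬ (a ∈ X ↔ d ∈ X) := mem_cutE_iff rfl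
  simp only [c1, c2, c3]
  by_cases ha : a ∈ X <;> by_cases hb : b ∈ X <;> by_cases hd : d ∈ X <;>
    simp [ha, hb, hd] <;> decide

lemma Ev_toggle {a b d : V} (h : IsTri G a b d) {T : Set G.edgeSet} (hT : Ev G T) :
    Ev G (symmDiff T (tE G a b d)) := by
  intro X hX
  rw [symmDiff_inter]
  exact even_symmDiff (hX.inter_of_right _) (hX.inter_of_right _) (hT X hX) (tE_even h X)

lemma tri_finite (D : Set V) (hDf : D.Finite) (p q : V → V)
    (hD : ∀ v ∈ D, IsTri G v (p v) (q v)) {T₀ : Set G.edgeSet} (h0 : Ev G T₀) :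
    ∃ T, Ev G T ∧ (∀ e, (∀ v ∈ D, e ∉ tE G v (p v) (q v)) → (e ∈ T ↔ e ∈ T₀)) ∧
      ∀ v ∈ D, 2 ≤ (T ∩ tE G v (p v) (q v)).ncard := by
  let F : Set G.edgeSet := ⋃ v ∈ D, tE G v (p v) (q v)
  have hF : F.Finite := hDf.biUnion fun v hv => tE_finite (hD v hv)
  have hFm : ∀ e, (∀ v ∈ D, e ∉ tE G v (p v) (q v)) ↔ e ∉ F := by
    intro e
    simp only [F, mem_iUnion, not_exists]
  let N : Set ℕ := {n | ∃ T, Ev G T ∧ (∀ e, e ∉ F → (e ∈ T ↔ e ∈ T₀)) ∧ (T ∩ F).ncard = n}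
  have hN : N.Nonempty := ⟨_, T₀, h0, fun e _ => Iff.rfl, rfl⟩
  have hb : BddAbove N := by
    refine ⟨F.ncard, ?_⟩
    rintro n ⟨T, _, _, rfl⟩
    exact Set.ncard_le_ncard inter_subset_right hF
  obtain ⟨T, hT1, hT2, hT3⟩ := Nat.sSup_mem hN hb
  refine ⟨T, hT1, fun e he => hT2 e ((hFm e).1 he), ?_⟩
  intro v hv
  by_contra hcon
  push Not at hcon
  have hsub : tE G v (p v) (q v) ⊆ F := fun e he => mem_biUnion hv he
  have h1 : ((symmDiff T (tE G v (p v) (q v))) ∩ F).ncard ∈ N := by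
    refine ⟨_, Ev_toggle (hD v hv) hT1, ?_, rfl⟩
    intro e he
    rw [← hT2 e he, Set.mem_symmDiff]
    have : e ∉ tE G v (p v) (q v) := fun h => he (hsub h)
    tauto
  have h2 := le_csSup hb h1
  have h3 : (symmDiff T (tE G v (p v) (q v))) ∩ F =
      symmDiff (T ∩ F) (tE G v (p v) (q v)) := by
    rw [symmDiff_inter]
    congr 1
    exact inter_eq_left.2 hsub
  have h4 := ncard_symmDiff (hF.inter_of_right T) (tE_finite (hD v hv))
  rw [← h3, tE_ncard (hD v hv)] at h4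
  have h5 : T ∩ F ∩ tE G v (p v) (q v) = T ∩ tE G v (p v) (q v) := by
    rw [inter_assoc]
    congr 1
    exact inter_eq_right.2 hsub
  rw [h5] at h4
  omega

lemma isClosed_dep {E : Type*} (s : Set E) (hs : s.Finite) (P : Set E → Prop)
    (hP : ∀ T T' : Set E, (∀ e ∈ s, (e ∈ T ↔ e ∈ T')) → P T → P T') :
    IsClosed {b : E → Bool | P {e | b e = true}} := by
  rw [← isOpen_compl_iff, isOpen_iff_forall_mem_open]
  intro b hb
  refine ⟨⋂ e ∈ s, {b' : E → Bool | b' e = b e}, ?_, ?_, ?_⟩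
  · intro b' hb'
    simp only [mem_iInter, mem_ofPred_eq] at hb'
    intro hcon
    apply hb
    refine hP _ _ ?_ hcon
    intro e he
    simp only [mem_ofPred_eq, hb' e he]
  · refine hs.isOpen_biInter fun e _ => ?_
    have h1 : IsOpen ({x | x = b e} : Set Bool) := isOpen_discrete _
    exact h1.preimage (continuous_apply (A := fun _ => Bool) e)
  · simp

theorem tri_all (D : Set V) (p q : V → V) (hD : ∀ v ∈ D, IsTri G v (p v) (q v))
    {T₀ : Set G.edgeSet} (h0 : Ev G T₀) :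
    ∃ T, Ev G T ∧ (∀ e, (∀ v ∈ D, e ∉ tE G v (p v) (q v)) → (e ∈ T ↔ e ∈ T₀)) ∧
      ∀ v ∈ D, 2 ≤ (T ∩ tE G v (p v) (q v)).ncard := by
  classical
  let K1 : Set (G.edgeSet → Bool) := {b | Ev G {e | b e = true}}
  let K2 : Set (G.edgeSet → Bool) := {b | ∀ e, (∀ v ∈ D, e ∉ tE G v (p v) (q v)) →
    (e ∈ {e | b e = true} ↔ e ∈ T₀)}
  have hK1 : IsClosed K1 := by
    have : K1 = ⋂ X : {X : Set V // (cutE G X).Finite},
        {b : G.edgeSet → Bool | Even ({e | b e = true} ∩ cutE G X.1).ncard} := by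
      ext b
      simp only [K1, Ev, mem_iInter, mem_ofPred_eq, Subtype.forall]
    rw [this]
    refine isClosed_iInter fun X => ?_
    refine isClosed_dep (cutE G X.1) X.2 (fun T => Even (T ∩ cutE G X.1).ncard) ?_
    intro T T' hTT' h
    have : T' ∩ cutE G X.1 = T ∩ cutE G X.1 := by
      ext e
      constructor
      · rintro ⟨h1, h2⟩; exact ⟨(hTT' e h2).2 h1, h2⟩
      · rintro ⟨h1, h2⟩; exact ⟨(hTT' e h2).1 h1, h2⟩
    show Even (T' ∩ cutE G X.1).ncard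
    rw [this]
    exact h
  have hK2 : IsClosed K2 := by
    have : K2 = ⋂ e : {e : G.edgeSet // ∀ v ∈ D, e ∉ tE G v (p v) (q v)},
        {b : G.edgeSet → Bool | (e.1 ∈ {e | b e = true} ↔ e.1 ∈ T₀)} := by
      ext b
      simp only [K2, mem_iInter, mem_ofPred_eq, Subtype.forall]
    rw [this]
    refine isClosed_iInter fun e => ?_
    refine isClosed_dep {e.1} (finite_singleton _) (fun T => (e.1 ∈ T ↔ e.1 ∈ T₀)) ?_
    intro T T' hTT' h
    have := hTT' e.1 rfl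
    show (e.1 ∈ T' ↔ e.1 ∈ T₀)
    rw [← this]
    exact h
  have hcomp : IsCompact (K1 ∩ K2) := (hK1.inter hK2).isCompact
  let t : D → Set (G.edgeSet → Bool) := fun v =>
    {b | 2 ≤ ({e | b e = true} ∩ tE G v.1 (p v.1) (q v.1)).ncard}
  have ht : ∀ v, IsClosed (t v) := by
    intro v
    refine isClosed_dep (tE G v.1 (p v.1) (q v.1)) (tE_finite (hD v.1 v.2))
      (fun T => 2 ≤ (T ∩ tE G v.1 (p v.1) (q v.1)).ncard) ?_
    intro T T' hTT' h
    have : T' ∩ tE G v.1 (p v.1) (q v.1) = T ∩ tE G v.1 (p v.1) (q v.1) := by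
      ext e
      constructor
      · rintro ⟨h1, h2⟩; exact ⟨(hTT' e h2).2 h1, h2⟩
      · rintro ⟨h1, h2⟩; exact ⟨(hTT' e h2).1 h1, h2⟩
    show 2 ≤ (T' ∩ tE G v.1 (p v.1) (q v.1)).ncard
    rw [this]
    exact h
  obtain ⟨b, hb, hb'⟩ := hcomp.inter_iInter_nonempty t ht (by
    intro s
    obtain ⟨T, h1, h2, h3⟩ := tri_finite (Subtype.val '' (s : Set D))
      ((s.finite_toSet).image _) p q (by
        rintro _ ⟨v, _, rfl⟩
        exact hD v.1 v.2) h0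
    have hset : {e : G.edgeSet | (decide (e ∈ T)) = true} = T := by
      ext e; simp
    refine ⟨fun e => decide (e ∈ T), ⟨?_, ?_⟩, ?_⟩
    · show Ev G {e | (decide (e ∈ T)) = true}
      rw [hset]
      exact h1
    · show ∀ e, (∀ v ∈ D, e ∉ tE G v (p v) (q v)) →
        (e ∈ {e : G.edgeSet | (decide (e ∈ T)) = true} ↔ e ∈ T₀)
      rw [hset]
      intro e he
      apply h2
      rintro _ ⟨v, _, rfl⟩
      exact he v.1 v.2
    · simp only [mem_iInter]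
      intro v hv
      show 2 ≤ ({e : G.edgeSet | (decide (e ∈ T)) = true} ∩ tE G v.1 (p v.1) (q v.1)).ncard
      rw [hset]
      exact h3 v.1 ⟨v, hv, rfl⟩)
  rw [mem_iInter] at hb'
  exact ⟨{e | b e = true}, hb.1, hb.2, fun v hv => hb' ⟨v, hv⟩⟩

/-- two of the three edges of the triangle are in `T` -/
lemma tri_two {a b d : V} (h : IsTri G a b d) {T : Set G.edgeSet}
    (h2 : 2 ≤ (T ∩ tE G a b d).ncard) :
    ((⟨s(a, b), h.ab⟩ : G.edgeSet) ∈ T ∧ (⟨s(b, d), h.bd⟩ : G.edgeSet) ∈ T) ∨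
    ((⟨s(a, b), h.ab⟩ : G.edgeSet) ∈ T ∧ (⟨s(a, d), h.ad⟩ : G.edgeSet) ∈ T) ∨
    ((⟨s(b, d), h.bd⟩ : G.edgeSet) ∈ T ∧ (⟨s(a, d), h.ad⟩ : G.edgeSet) ∈ T) := by
  obtain ⟨e, he, f, hf, hef⟩ := (Set.one_lt_ncard ((tE_finite h).inter_of_right T)).1 h2
  have key : ∀ e : G.edgeSet, e ∈ tE G a b d → e = ⟨s(a, b), h.ab⟩ ∨ e = ⟨s(b, d), h.bd⟩ ∨
      e = ⟨s(a, d), h.ad⟩ := by
    rintro e (he | he | he)
    · exact Or.inl (Subtype.ext he)
    · exact Or.inr (Or.inl (Subtype.ext he))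
    · exact Or.inr (Or.inr (Subtype.ext he))
  have he1 := he.1
  have hf1 := hf.1
  rcases key e he.2 with rfl | rfl | rfl <;> rcases key f hf.2 with rfl | rfl | rfl
  · exact absurd rfl hef
  · exact Or.inl ⟨he1, hf1⟩
  · exact Or.inr (Or.inl ⟨he1, hf1⟩)
  · exact Or.inl ⟨hf1, he1⟩
  · exact absurd rfl hef
  · exact Or.inr (Or.inr ⟨he1, hf1⟩)
  · exact Or.inr (Or.inl ⟨hf1, he1⟩)
  · exact Or.inr (Or.inr ⟨hf1, he1⟩)
  · exact absurd rfl hef

end Pool.H66.TG
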