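import Pool.Agent.Helper66.TG.Push
import Pool.Agent.Helper66.TG.Tri
import Pool.Agent.Helper66.HC.ThmA

/-! # Connectivity of the rerouted even set -/

open Set

namespace Pool.H66.TG

open Pool.H66.HC

universe u

variable {V : Type u} {G : SimpleGraph V}

/-- The multigraph: the edges in `T` are as in `G`, the others are loops at `b`. -/
def mgb (T : Set G.edgeSet) (b : G.edgeSet → V) : MG V G.edgeSet where
  lk e u v := (e ∈ T ∧ e.1 = s(u, v)) ∨ (e ∉ T ∧ u = b e ∧ v = b e)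
  symm := by
    rintro e u v (⟨h1, h2⟩ | ⟨h1, h2, h3⟩)
    · exact Or.inl ⟨h1, h2.trans Sym2.eq_swap⟩
    · exact Or.inr ⟨h1, h3, h2⟩
  uniq := by
    rintro e u v u' v' (⟨h1, h2⟩ | ⟨h1, h2, h3⟩) (⟨h1', h2'⟩ | ⟨h1', h2', h3'⟩)
    · rw [h2] at h2'
      rcases Sym2.eq_iff.1 h2' with ⟨rfl, rfl⟩ | ⟨rfl, rfl⟩
      · exact Or.inl ⟨rfl, rfl⟩
      · exact Or.inr ⟨rfl, rfl⟩
    · exact absurd h1 h1'
    · exact absurd h1' h1
    · subst h2; subst h3; subst h2'; subst h3'; exact Or.inl ⟨rfl, rfl⟩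
  ex := by
    intro e
    by_cases h : e ∈ T
    · obtain ⟨e, he⟩ := e
      induction e using Sym2.ind with
      | _ a d => exact ⟨a, d, Or.inl ⟨h, rfl⟩⟩
    · exact ⟨b e, b e, Or.inr ⟨h, rfl, rfl⟩⟩

section mgb

variable {T : Set G.edgeSet} {b : G.edgeSet → V}

lemma mgb_mem (hb : ∀ e, b e ∈ e.1) {e : G.edgeSet} {u v : V} (h : (mgb T b).lk e u v) :
    u ∈ e.1 ∧ v ∈ e.1 := by
  rcases h with ⟨_, h2⟩ | ⟨_, rfl, rfl⟩
  · rw [h2]; simp
  · exact ⟨hb e, hb e⟩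

lemma mgb_cross {X : Set V} {e : G.edgeSet} :
    Cross (mgb T b) X e ↔ e ∈ T ∧ e ∈ cutE G X := by
  constructor
  · rintro ⟨u, hu, v, hv, ⟨h1, h2⟩ | ⟨h1, rfl, rfl⟩⟩
    · exact ⟨h1, u, hu, v, hv, h2⟩
    · exact absurd hu hv
  · rintro ⟨h1, u, hu, v, hv, h2⟩
    exact ⟨u, hu, v, hv, Or.inl ⟨h1, h2⟩⟩

/-- a walk that leaves `X` has a crossing edge -/
lemma reach_cross {D : Set G.edgeSet} {X : Set V} {x y : V} (h : Reach (mgb T b) D x y)
    (hx : x ∈ X) (hy : y ∉ X) : ∃ e ∈ D, e ∈ T ∧ e ∈ cutE G X := by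
  obtain ⟨l, hl, hl'⟩ := h
  induction l generalizing x with
  | nil => cases hl; exact absurd hx hy
  | cons a l ih =>
    obtain ⟨e, v⟩ := a
    obtain ⟨h1, h2⟩ := hl
    by_cases hv : v ∈ X
    · exact ih hv h2 (fun a ha => hl' a (List.mem_cons_of_mem _ ha))
    · have hc : Cross (mgb T b) X e := ⟨x, hx, v, hv, h1⟩
      rw [mgb_cross] at hc
      exact ⟨e, hl' e (List.mem_cons_self ..), hc⟩

end mgb

/-- the data -/
structure Sys (G : SimpleGraph V) (c y : V → V) (D : Set V) (H : SimpleGraph (V × Fin 5))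
    (T : Set G.edgeSet) : Prop where
  lf : ∀ v, (G.neighborSet v).Finite
  ctr : Ctr G c
  good : Good2 (blow G c) H
  tri : ∀ v ∈ D, IsTri G v (y v) (c v)
  ty : ∀ v ∈ D, y v ∈ D ∨ c (y v) = y v
  ev : Ev G T
  two : ∀ v ∈ D, 2 ≤ (T ∩ tE G v (y v) (c v)).ncard
  low : ∀ v, c v ≠ v → v ∉ D → (G.neighborSet v).ncard ≤ 2
  hedge : ∀ u w, G.Adj u w → ((c u = u ∨ u ∈ D) ∨ (c w = w ∨ w ∈ D))
  lift : ∀ u w (h : G.Adj u w), H.Adj (u, 0) (w, 0) → c u ≠ c w →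
    (⟨s(u, w), h⟩ : G.edgeSet) ∈ T ∨
      ∃ v ∈ D, (⟨s(u, w), h⟩ : G.edgeSet) ∈ tE G v (y v) (c v)

/-- `v` and its neighbours are not ends of edges in `F` -/
def Out (F : Finset G.edgeSet) (v : V) : Prop := v ∉ vset F ∧ ∀ w, G.Adj v w → w ∉ vset F

section sys

variable {c y : V → V} {D : Set V} {H : SimpleGraph (V × Fin 5)} {T : Set G.edgeSet}
  {b : G.edgeSet → V}

lemma tri_reach (hS : Sys G c y D H T) {F : Finset G.edgeSet} {v : V} (hv : v ∈ D)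
    (hF : ∀ e ∈ tE G v (y v) (c v), e ∉ F) :
    Reach (mgb T b) (co F) v (y v) ∧ Reach (mgb T b) (co F) v (c v) := by
  have htri := hS.tri v hv
  have f1 : (⟨s(v, y v), htri.ab⟩ : G.edgeSet) ∈ co F := hF _ (Or.inl rfl)
  have f2 : (⟨s(y v, c v), htri.bd⟩ : G.edgeSet) ∈ co F := hF _ (Or.inr (Or.inl rfl))
  have f3 : (⟨s(v, c v), htri.ad⟩ : G.edgeSet) ∈ co F := hF _ (Or.inr (Or.inr rfl))
  have r1 : (⟨s(v, y v), htri.ab⟩ : G.edgeSet) ∈ T → Reach (mgb T b) (co F) v (y v) :=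
    fun h => Reach.of_lk (Or.inl ⟨h, rfl⟩) f1
  have r2 : (⟨s(y v, c v), htri.bd⟩ : G.edgeSet) ∈ T → Reach (mgb T b) (co F) (y v) (c v) :=
    fun h => Reach.of_lk (Or.inl ⟨h, rfl⟩) f2
  have r3 : (⟨s(v, c v), htri.ad⟩ : G.edgeSet) ∈ T → Reach (mgb T b) (co F) v (c v) :=
    fun h => Reach.of_lk (Or.inl ⟨h, rfl⟩) f3
  rcases tri_two htri (hS.two v hv) with ⟨h1, h2⟩ | ⟨h1, h2⟩ | ⟨h1, h2⟩
  · exact ⟨r1 h1, (r1 h1).trans (r2 h2)⟩
  · exact ⟨r1 h1, r3 h2⟩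
  · exact ⟨(r3 h2).trans (r2 h1).symm, r3 h2⟩

lemma star_mem (hS : Sys G c y D H T) {v : V} (hcv : c v ≠ v) (hvD : v ∉ D) {e : G.edgeSet}
    (he : e ∈ T) (hve : v ∈ e.1) : (⟨s(v, c v), hS.ctr.adj v hcv⟩ : G.edgeSet) ∈ T := by
  classical
  have hfin := cutE_singleton_finite hS.lf v
  have heven := hS.ev {v} hfin
  have hecut : e ∈ cutE G {v} := by
    obtain ⟨e, hee⟩ := e
    induction e using Sym2.ind with
    | _ a d =>
      rcases Sym2.mem_iff.1 hve with rfl | rfl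
      · exact ⟨v, rfl, d, fun h => G.ne_of_adj hee h.symm, rfl⟩
      · exact ⟨v, rfl, a, fun h => G.ne_of_adj hee h, Sym2.eq_swap⟩
  have h1 : 0 < (T ∩ cutE G {v}).ncard :=
    (Set.ncard_pos (hfin.inter_of_right T)).2 ⟨e, he, hecut⟩
  have h2 : 2 ≤ (T ∩ cutE G {v}).ncard := by
    rcases heven with ⟨k, hk⟩
    omega
  have h3 : (cutE G {v}).ncard ≤ 2 := by
    refine le_trans ?_ (hS.low v hcv hvD)
    rw [← Set.ncard_image_of_injective (cutE G {v}) Subtype.val_injective]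
    refine le_trans (Set.ncard_le_ncard (t := (fun w => s(v, w)) '' G.neighborSet v) ?_
      ((hS.lf v).image _)) (Set.ncard_image_le (hS.lf v))
    rintro _ ⟨f, ⟨u, hu, w, _, huw⟩, rfl⟩
    rw [mem_singleton_iff] at hu
    subst hu
    refine ⟨w, ?_, huw.symm⟩
    have := f.2
    rw [huw] at this
    exact this
  have h4 : T ∩ cutE G {v} = cutE G {v} :=
    Set.eq_of_subset_of_ncard_le inter_subset_right (h3.trans h2) hfin
  have h5 : (⟨s(v, c v), hS.ctr.adj v hcv⟩ : G.edgeSet) ∈ cutE G {v} :=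
    ⟨v, rfl, c v, hcv, rfl⟩
  rw [← h4] at h5
  exact h5.1

lemma Out.tri (hS : Sys G c y D H T) {F : Finset G.edgeSet} {v : V} (hv : v ∈ D)
    (ho : Out F v) : ∀ e ∈ tE G v (y v) (c v), e ∉ F := by
  have htri := hS.tri v hv
  rintro e (he | he | he) heF
  · exact ho.1 (mem_vset heF (by rw [he]; simp))
  · exact ho.2 (y v) htri.ab (mem_vset heF (by rw [he]; simp))
  · exact ho.1 (mem_vset heF (by rw [he]; simp))

lemma reach_c (hS : Sys G c y D H T) {F : Finset G.edgeSet} {v : V} (ho : Out F v)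
    (h : (c v = v ∨ v ∈ D) ∨ ∃ e ∈ T, v ∈ e.1) : Reach (mgb T b) (co F) v (c v) := by
  by_cases h1 : c v = v
  · rw [h1]; exact Reach.refl _
  by_cases h2 : v ∈ D
  · exact (tri_reach hS h2 (ho.tri hS h2)).2
  rcases h with (h | h) | ⟨e, he, hve⟩
  · exact absurd h h1
  · exact absurd h h2
  · have h3 := star_mem hS h1 h2 he hve
    refine Reach.of_lk (Or.inl ⟨h3, rfl⟩) ?_
    intro hF
    exact ho.1 (mem_vset hF (by simp))

lemma step (hS : Sys G c y D H T) {F : Finset G.edgeSet} {u w : V} (hu : Out F u)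
    (hw : Out F w) (h : G.Adj u w) (hH : H.Adj (u, 0) (w, 0)) :
    Reach (mgb T b) (co F) (c u) (c w) := by
  by_cases hcc : c u = c w
  · rw [hcc]; exact Reach.refl _
  have huF : (⟨s(u, w), h⟩ : G.edgeSet) ∈ co F := by
    intro hF
    exact hu.1 (mem_vset hF (by simp))
  rcases hS.lift u w h hH hcc with hT | ⟨v, hv, hm⟩
  · have h1 : Reach (mgb T b) (co F) u w := Reach.of_lk (Or.inl ⟨hT, rfl⟩) huF
    have h2 := reach_c (b := b) hS hu (Or.inr ⟨_, hT, by simp⟩)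
    have h3 := reach_c (b := b) hS hw (Or.inr ⟨_, hT, by simp⟩)
    exact (h2.symm.trans h1).trans h3
  · have htri := hS.tri v hv
    -- both ends are vertices of the triangle, each edge of the triangle contains one of them
    have hcase : (u = v ∧ w = y v) ∨ (u = y v ∧ w = v) ∨ (u = y v ∧ w = c v) ∨
        (u = c v ∧ w = y v) ∨ (u = v ∧ w = c v) ∨ (u = c v ∧ w = v) := by
      rcases hm with hm | hm | hm
      · rcases Sym2.eq_iff.1 hm with ⟨h1, h2⟩ | ⟨h1, h2⟩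
        · exact Or.inl ⟨h1, h2⟩
        · exact Or.inr (Or.inl ⟨h1, h2⟩)
      · rcases Sym2.eq_iff.1 hm with ⟨h1, h2⟩ | ⟨h1, h2⟩
        · exact Or.inr (Or.inr (Or.inl ⟨h1, h2⟩))
        · exact Or.inr (Or.inr (Or.inr (Or.inl ⟨h1, h2⟩)))
      · rcases Sym2.eq_iff.1 hm with ⟨h1, h2⟩ | ⟨h1, h2⟩
        · exact Or.inr (Or.inr (Or.inr (Or.inr (Or.inl ⟨h1, h2⟩))))
        · exact Or.inr (Or.inr (Or.inr (Or.inr (Or.inr ⟨h1, h2⟩))))
    have hF : ∀ e ∈ tE G v (y v) (c v), e ∉ F := by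
      intro e he heF
      have h1 : u ∈ e.1 ∨ w ∈ e.1 := by
        rcases he with he | he | he <;> rw [he] <;>
          rcases hcase with ⟨h1, h2⟩ | ⟨h1, h2⟩ | ⟨h1, h2⟩ | ⟨h1, h2⟩ | ⟨h1, h2⟩ | ⟨h1, h2⟩ <;>
          rw [h1, h2] <;> simp
      rcases h1 with h1 | h1
      · exact hu.1 (mem_vset heF h1)
      · exact hw.1 (mem_vset heF h1)
    obtain ⟨t1, t2⟩ := tri_reach (b := b) hS hv hF
    have hyc := hS.ty v hv
    have hcv := hS.ctr.idem v
    have hcu : c u = u ∨ u ∈ D := by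
      rcases hcase with ⟨h1, h2⟩ | ⟨h1, h2⟩ | ⟨h1, h2⟩ | ⟨h1, h2⟩ | ⟨h1, h2⟩ | ⟨h1, h2⟩ <;> rw [h1]
      · exact Or.inr hv
      · exact hyc.symm
      · exact hyc.symm
      · exact Or.inl hcv
      · exact Or.inr hv
      · exact Or.inl hcv
    have hcw : c w = w ∨ w ∈ D := by
      rcases hcase with ⟨h1, h2⟩ | ⟨h1, h2⟩ | ⟨h1, h2⟩ | ⟨h1, h2⟩ | ⟨h1, h2⟩ | ⟨h1, h2⟩ <;> rw [h2]
      · exact hyc.symm
      · exact Or.inr hv
      · exact Or.inl hcv
      · exact hyc.symm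
      · exact Or.inl hcv
      · exact Or.inr hv
    have h1 : Reach (mgb T b) (co F) u w := by
      rcases hcase with ⟨h1, h2⟩ | ⟨h1, h2⟩ | ⟨h1, h2⟩ | ⟨h1, h2⟩ | ⟨h1, h2⟩ | ⟨h1, h2⟩ <;>
        rw [h1, h2]
      · exact t1
      · exact t1.symm
      · exact t1.symm.trans t2
      · exact t2.symm.trans t1
      · exact t2
      · exact t2.symm
    exact ((reach_c hS hu (Or.inl hcu)).symm.trans h1).trans (reach_c hS hw (Or.inl hcw))

lemma walkH (hS : Sys G c y D H T) {F : Finset G.edgeSet} {K : Set (V × Fin 5)}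
    (hK : ∀ r, r ∉ K → Out F r.1) {p q : (Kᶜ : Set (V × Fin 5))}
    (h : (H.induce Kᶜ).Reachable p q) : Reach (mgb T b) (co F) (c p.1.1) (c q.1.1) := by
  obtain ⟨w⟩ := h
  induction w with
  | nil => exact Reach.refl _
  | @cons p x q hpx w ih =>
    refine Reach.trans ?_ ih
    have hHadj : H.Adj p.1 x.1 := hpx
    rcases hS.good.le hHadj with ⟨h1, _⟩ | ⟨h1, h2, h3⟩ | ⟨_, _, h3 | h3⟩
    · rw [h1]; exact Reach.refl _
    · apply step hS (hK _ p.2) (hK _ x.2) h3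
      have e1 : ((p.1.1, 0) : V × Fin 5) = p.1 := Prod.ext rfl h1.symm
      have e2 : ((x.1.1, 0) : V × Fin 5) = x.1 := Prod.ext rfl h2.symm
      rw [e1, e2]
      exact hHadj
    · rw [← h3, hS.ctr.idem]; exact Reach.refl _
    · rw [← h3, hS.ctr.idem]; exact Reach.refl _

lemma ef' (hS : Sys G c y D H T) (F : Finset G.edgeSet) : ∃ L : Finset V,
    (∀ v, v ∉ L → Out F v) ∧ ∀ u v (hu : u ∉ L) (hv : v ∉ L),
      (G.induce (L : Set V)ᶜ).Reachable ⟨u, hu⟩ ⟨v, hv⟩ →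
      Reach (mgb T b) (co F) (c u) (c v) := by
  classical
  have hfin : {v : V | ¬ Out F v}.Finite := by
    refine ((vset F).finite_toSet.union
      ((vset F).finite_toSet.biUnion fun w _ => hS.lf w)).subset ?_
    intro v hv
    by_contra hcon
    apply hv
    simp only [mem_union, Finset.mem_coe, mem_iUnion, not_or, not_exists] at hcon
    exact ⟨hcon.1, fun w hw hwF => hcon.2 w hwF hw.symm⟩
  let S1 : Finset V := hfin.toFinset
  have hS1 : ∀ v, v ∉ S1 → Out F v := by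
    intro v hv
    by_contra hcon
    exact hv ((Set.Finite.mem_toFinset _).2 hcon)
  obtain ⟨L', hKL, hL'⟩ := hS.good.ef (S1 ×ˢ Finset.univ)
  refine ⟨L'.image Prod.fst ∪ S1, ?_, ?_⟩
  · intro v hv
    exact hS1 v fun h => hv (Finset.mem_union_right _ h)
  · intro u v hu hv hr
    have hu0 : (u, (0 : Fin 5)) ∉ L' := fun h =>
      hu (Finset.mem_union_left _ (Finset.mem_image_of_mem Prod.fst h))
    have hv0 : (v, (0 : Fin 5)) ∉ L' := fun h =>
      hv (Finset.mem_union_left _ (Finset.mem_image_of_mem Prod.fst h))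
    have h1 := blow_reach (G := G) (c := c) (L := ((L'.image Prod.fst ∪ S1 : Finset V) : Set V))
      (L' := (L' : Set (V × Fin 5))) (fun p hp =>
        Finset.mem_coe.2 (Finset.mem_union_left _ (Finset.mem_image_of_mem Prod.fst hp)))
      hr hu0 hv0
    have h2 := hL' (u, 0) (v, 0) hu0 hv0 (fun h => hu0 (hKL h)) (fun h => hv0 (hKL h)) h1
    exact walkH hS (K := ((S1 ×ˢ Finset.univ : Finset (V × Fin 5)) : Set (V × Fin 5)))
      (fun r hr => hS1 r.1 fun h => hr (by simp [h])) h2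

end sys

end Pool.H66.TG
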