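import Mathlib
import Pool.Agent.Helper66.HE.HubS
import Pool.Agent.Helper70.HE.Final
import Pool.Agent.Helper17.HCC.LimE

/-! MP_887f13: Hamilton circles in line graphs of four-edge-connected graphs with countably many
ends. -/

namespace Pool.H66.TG.CountableEnds

open Pool.H66.HC

universe u

/-- Let `G` be an infinite, locally finite, four-edge-connected graph with countably many ends.
Then the end compactification of the line graph of `G` contains a Hamilton circle. -/
theorem result {V : Type u} [Infinite V] (G : SimpleGraph V)
    (hlf : ∀ v, (G.neighborSet v).Finite) (h4 : G.IsEdgeConnected 4)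
    (hc : Countable G.end) : HasHamiltonCircle G.lineGraph :=
  Pool.H70.HE.main_of hlf h4 hc (Pool.H66.HE.hubS (four_of_isEdgeConnected h4))
    (fun _ _ _ hS => Pool.H17.HCC.exists_lim hS (four_of_isEdgeConnected h4))

end Pool.H66.TG.CountableEnds
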