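import Pool.Agent.Helper66.HC.FromH

/-! # Parities of finite cuts -/

open Set

namespace Pool.H66.TG

open Pool.H66.HC

universe u

variable {V : Type u} {G : SimpleGraph V}

/-- `T` meets every finite cut in an even number of edges -/
def Ev (G : SimpleGraph V) (T : Set G.edgeSet) : Prop :=
  ∀ X : Set V, (cutE G X).Finite → Even (T ∩ cutE G X).ncard

lemma mem_cutE_iff {u v : V} {e : G.edgeSet} (h : e.1 = s(u, v)) {X : Set V} :
    e ∈ cutE G X ↔ ¬ (u ∈ X ↔ v ∈ X) := by
  constructor
  · rintro ⟨a, ha, b, hb, hab⟩ hiff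
    rw [h] at hab
    rcases Sym2.eq_iff.1 hab with ⟨rfl, rfl⟩ | ⟨rfl, rfl⟩
    · exact hb (hiff.1 ha)
    · exact hb (hiff.2 ha)
  · intro hiff
    by_cases hu : u ∈ X
    · by_cases hv : v ∈ X
      · exact absurd (iff_of_true hu hv) hiff
      · exact ⟨u, hu, v, hv, h⟩
    · by_cases hv : v ∈ X
      · exact ⟨v, hv, u, hu, h.trans Sym2.eq_swap⟩
      · exact absurd (iff_of_false hu hv) hiff

lemma ncard_symmDiff {α : Type*} {P Q : Set α} (hP : P.Finite) (hQ : Q.Finite) :
    (symmDiff P Q).ncard + 2 * (P ∩ Q).ncard = P.ncard + Q.ncard := by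
  have h1 : (symmDiff P Q).ncard = (P \ Q).ncard + (Q \ P).ncard := by
    rw [Set.symmDiff_def]
    apply Set.ncard_union_eq _ (hP.diff) (hQ.diff)
    rw [Set.disjoint_left]
    rintro x ⟨hx, _⟩ ⟨_, hx'⟩
    exact hx' hx
  have h2 := Set.ncard_inter_add_ncard_diff_eq_ncard P Q hP
  have h3 := Set.ncard_inter_add_ncard_diff_eq_ncard Q P hQ
  rw [Set.inter_comm Q P] at h3
  omega

lemma even_symmDiff {α : Type*} {P Q : Set α} (hP : P.Finite) (hQ : Q.Finite)
    (h1 : Even P.ncard) (h2 : Even Q.ncard) : Even (symmDiff P Q).ncard := by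
  have h := ncard_symmDiff hP hQ
  rw [Nat.even_iff] at *
  omega

lemma inter_symmDiff {α : Type*} (T P Q : Set α) :
    T ∩ symmDiff P Q = symmDiff (T ∩ P) (T ∩ Q) := by
  ext x
  simp only [Set.mem_inter_iff, Set.mem_symmDiff]
  tauto

lemma symmDiff_inter {α : Type*} (T P Q : Set α) :
    symmDiff P Q ∩ T = symmDiff (P ∩ T) (Q ∩ T) := by
  ext x
  simp only [Set.mem_inter_iff, Set.mem_symmDiff]
  tauto

lemma cutE_symmDiff (A B : Set V) :
    cutE G (symmDiff A B) = symmDiff (cutE G A) (cutE G B) := by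
  ext e
  obtain ⟨e, he⟩ := e
  induction e using Sym2.ind with
  | _ a b =>
    rw [Set.mem_symmDiff, mem_cutE_iff (u := a) (v := b) rfl, mem_cutE_iff (u := a) (v := b) rfl,
      mem_cutE_iff (u := a) (v := b) rfl, Set.mem_symmDiff, Set.mem_symmDiff]
    tauto

lemma cutE_singleton_finite (hlf : ∀ v, (G.neighborSet v).Finite) (v : V) :
    (cutE G {v}).Finite := by
  refine (finite_incident hlf v).subset ?_
  rintro e ⟨u, hu, w, _, h⟩
  rw [mem_singleton_iff] at hu
  subst hu
  show u ∈ e.1
  rw [h]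
  simp

/-- the cut of a finite set of even vertices is even -/
lemma even_finset (hlf : ∀ v, (G.neighborSet v).Finite) (T : Set G.edgeSet) (M : Finset V)
    (h : ∀ v ∈ M, Even (T ∩ cutE G {v}).ncard) :
    (cutE G (M : Set V)).Finite ∧ Even (T ∩ cutE G (M : Set V)).ncard := by
  classical
  induction M using Finset.induction_on with
  | empty =>
    have : cutE G ((∅ : Finset V) : Set V) = ∅ := by
      ext e
      simp only [mem_empty_iff_false, iff_false]
      rintro ⟨u, hu, _⟩
      simp at hu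
    rw [this]
    simp
  | insert a M ha ih =>
    obtain ⟨h1, h2⟩ := ih fun v hv => h v (Finset.mem_insert_of_mem hv)
    have h3 : ((insert a M : Finset V) : Set V) = symmDiff {a} (M : Set V) := by
      ext x
      rw [Set.mem_symmDiff]
      simp only [Finset.coe_insert, mem_insert_iff, Finset.mem_coe, mem_singleton_iff]
      constructor
      · rintro (rfl | hx)
        · exact Or.inl ⟨rfl, ha⟩
        · right
          refine ⟨hx, ?_⟩
          rintro rfl
          exact ha hx
      · rintro (⟨rfl, _⟩ | ⟨hx, _⟩)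
        · exact Or.inl rfl
        · exact Or.inr hx
    have h4 := cutE_singleton_finite hlf a
    rw [h3, cutE_symmDiff]
    refine ⟨?_, ?_⟩
    · refine (h4.union h1).subset ?_
      intro e he
      rcases he with ⟨he, _⟩ | ⟨he, _⟩
      · exact Or.inl he
      · exact Or.inr he
    · rw [inter_symmDiff]
      exact even_symmDiff (h4.inter_of_right T) (h1.inter_of_right T)
        (h a (Finset.mem_insert_self a M)) h2

end Pool.H66.TG
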