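import Pool.Agent.Helper66.TG.Blow
import Pool.Agent.Helper66.TG.Par

/-! # Pushing even edge sets from the blow-up to the graph -/

open Set

namespace Pool.H66.TG

open Pool.H66.HC

universe u

variable {V : Type u} {G : SimpleGraph V} {c : V → V}

/-- the copy in layer zero of an edge -/
def cop (G : SimpleGraph V) (c : V → V) (e : G.edgeSet) : (blow G c).edgeSet :=
  ⟨e.1.map (fun v => (v, (0 : Fin 5))), by
    obtain ⟨e, he⟩ := e
    induction e using Sym2.ind with
    | _ a b => exact blow_zero (G := G) (c := c) he⟩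

lemma cop_eq {e : G.edgeSet} {u w : V} (h : e.1 = s(u, w)) :
    (cop G c e).1 = s((u, 0), (w, 0)) := by
  show e.1.map _ = _
  rw [h]
  rfl

lemma cop_inj : Function.Injective (cop G c) := by
  intro e f h
  have h1 : e.1.map (fun v => (v, (0 : Fin 5))) = f.1.map (fun v => (v, (0 : Fin 5))) :=
    congrArg Subtype.val h
  apply Subtype.ext
  refine Sym2.map.injective ?_ h1
  intro a b hab
  exact (Prod.mk.injEq _ _ _ _ ▸ hab).1

/-- the edges between different stars whose copy is in `T'` -/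
def T1 (G : SimpleGraph V) (c : V → V) (T' : Set (blow G c).edgeSet) : Set G.edgeSet :=
  {e | (∀ u w, e.1 = s(u, w) → c u ≠ c w) ∧ cop G c e ∈ T'}

/-- parity of the leaves restored -/
def T0 (G : SimpleGraph V) (c : V → V) (T' : Set (blow G c).edgeSet) : Set G.edgeSet :=
  T1 G c T' ∪ {e | ∃ v, c v ≠ v ∧ e.1 = s(v, c v) ∧ ¬ Even (T1 G c T' ∩ cutE G {v}).ncard}

lemma blow_cut (hc : Ctr G c) {X : Set V} (hX : ∀ v, c v ∈ X ↔ v ∈ X) :
    cutE (blow G c) (X ×ˢ univ) = cop G c '' cutE G X := by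
  ext f
  constructor
  · rintro ⟨p, hp, q, hq, hf⟩
    have hp1 : p.1 ∈ X := hp.1
    have hq1 : q.1 ∉ X := fun h => hq ⟨h, mem_univ _⟩
    have hadj : (blow G c).Adj p q := by
      have := f.2
      rw [hf] at this
      exact this
    rcases hadj with ⟨h1, _⟩ | ⟨h1, h2, h3⟩ | ⟨_, _, h3 | h3⟩
    · rw [h1] at hp1; exact absurd hp1 hq1
    · refine ⟨⟨s(p.1, q.1), h3⟩, ⟨p.1, hp1, q.1, hq1, rfl⟩, ?_⟩
      apply Subtype.ext
      have e1 : ((p.1, 0) : V × Fin 5) = p := Prod.ext rfl h1.symm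
      have e2 : ((q.1, 0) : V × Fin 5) = q := Prod.ext rfl h2.symm
      rw [cop_eq (u := p.1) (w := q.1) rfl, hf, e1, e2]
    · have := (hX p.1).2 hp1
      rw [h3] at this
      exact absurd this hq1
    · have := (hX q.1).1 (by rw [h3]; exact hp1)
      exact absurd this hq1
  · rintro ⟨e, ⟨u, hu, w, hw, he⟩, rfl⟩
    exact ⟨(u, 0), ⟨hu, mem_univ _⟩, (w, 0), fun h => hw h.1, cop_eq he⟩

lemma T1_closed (hc : Ctr G c) {T' : Set (blow G c).edgeSet} (hT' : Ev (blow G c) T')
    {X : Set V} (hX : ∀ v, c v ∈ X ↔ v ∈ X) (hfin : (cutE G X).Finite) :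
    Even (T1 G c T' ∩ cutE G X).ncard := by
  have h1 := blow_cut hc hX
  have h2 : (cutE (blow G c) (X ×ˢ univ)).Finite := by
    rw [h1]
    exact hfin.image _
  have h3 := hT' _ h2
  have h4 : T' ∩ cutE (blow G c) (X ×ˢ univ) = cop G c '' (T1 G c T' ∩ cutE G X) := by
    rw [h1]
    ext f
    constructor
    · rintro ⟨hf, e, he, rfl⟩
      refine ⟨e, ⟨⟨?_, hf⟩, he⟩, rfl⟩
      intro u w huw hcc
      rw [mem_cutE_iff huw] at he
      apply he
      rw [← hX u, ← hX w, hcc]
    · rintro ⟨e, ⟨⟨_, hf⟩, he⟩, rfl⟩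
      exact ⟨hf, e, he, rfl⟩
  rw [h4, Set.ncard_image_of_injective _ cop_inj] at h3
  exact h3

lemma T0_closed {T' : Set (blow G c).edgeSet} {X : Set V} (hX : ∀ v, c v ∈ X ↔ v ∈ X) :
    T0 G c T' ∩ cutE G X = T1 G c T' ∩ cutE G X := by
  ext e
  constructor
  · rintro ⟨h | ⟨v, _, hv, _⟩, he⟩
    · exact ⟨h, he⟩
    · rw [mem_cutE_iff hv] at he
      exact absurd (hX v).symm he
  · rintro ⟨h, he⟩
    exact ⟨Or.inl h, he⟩

lemma T0_leaf (hc : Ctr G c) (hlf : ∀ v, (G.neighborSet v).Finite)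
    {T' : Set (blow G c).edgeSet} {v : V} (hv : c v ≠ v) :
    Even (T0 G c T' ∩ cutE G {v}).ncard := by
  let f : G.edgeSet := ⟨s(v, c v), hc.adj v hv⟩
  have hfc : f ∈ cutE G {v} := ⟨v, rfl, c v, by simpa using hv, rfl⟩
  have hf1 : f ∉ T1 G c T' := by
    rintro ⟨h, _⟩
    exact h v (c v) rfl (hc.idem v).symm
  -- star edges at `v`
  have hstar : ∀ e ∈ cutE G {v}, ∀ v', c v' ≠ v' → e.1 = s(v', c v') → v' = v := by
    intro e he v' hv' hev
    have hmem : v ∈ e.1 := by
      obtain ⟨a, ha, b, _, hab⟩ := he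
      rw [mem_singleton_iff] at ha
      subst ha
      rw [hab]
      simp
    rw [hev] at hmem
    rcases Sym2.mem_iff.1 hmem with h | h
    · exact h.symm
    · exfalso
      apply hv
      rw [h, hc.idem]
  by_cases hev : Even (T1 G c T' ∩ cutE G {v}).ncard
  · have : T0 G c T' ∩ cutE G {v} = T1 G c T' ∩ cutE G {v} := by
      ext e
      constructor
      · rintro ⟨h | ⟨v', hv', hev', hodd⟩, he⟩
        · exact ⟨h, he⟩
        · have := hstar e he v' hv' hev'
          subst this
          exact absurd hev hodd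
      · rintro ⟨h, he⟩
        exact ⟨Or.inl h, he⟩
    rw [this]
    exact hev
  · have : T0 G c T' ∩ cutE G {v} = insert f (T1 G c T' ∩ cutE G {v}) := by
      ext e
      constructor
      · rintro ⟨h | ⟨v', hv', hev', hodd⟩, he⟩
        · exact Or.inr ⟨h, he⟩
        · have := hstar e he v' hv' hev'
          subst this
          exact Or.inl (Subtype.ext hev')
      · rintro (rfl | ⟨h, he⟩)
        · exact ⟨Or.inr ⟨v, hv, rfl, hev⟩, hfc⟩
        · exact ⟨Or.inl h, he⟩
    rw [this, Set.ncard_insert_of_notMem (fun h => hf1 h.1)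
      ((cutE_singleton_finite hlf v).inter_of_right _)]
    rw [Nat.even_add_one]
    exact hev

/-- the even set of the graph -/
theorem T0_even (hc : Ctr G c) (hlf : ∀ v, (G.neighborSet v).Finite)
    {T' : Set (blow G c).edgeSet} (hT' : Ev (blow G c) T') : Ev G (T0 G c T') := by
  classical
  intro X hfin
  let Y : Set V := {v | c v ∈ X}
  have hY : ∀ v, c v ∈ Y ↔ v ∈ Y := by
    intro v
    show c (c v) ∈ X ↔ c v ∈ X
    rw [hc.idem]
  -- the misplaced leaves
  have hM : {v | ¬ (v ∈ X ↔ c v ∈ X)}.Finite := by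
    have h1 : (⋃ e ∈ cutE G X, {v | v ∈ e.1}).Finite := by
      refine hfin.biUnion ?_
      intro e _
      obtain ⟨e, he⟩ := e
      induction e using Sym2.ind with
      | _ a b =>
        refine (Set.toFinite {a, b}).subset ?_
        intro v hv
        rcases Sym2.mem_iff.1 hv with rfl | rfl
        · exact Or.inl rfl
        · exact Or.inr rfl
    refine h1.subset ?_
    intro v hv
    have hne : c v ≠ v := by
      intro h
      apply hv
      rw [h]
    simp only [mem_iUnion]
    refine ⟨⟨s(v, c v), hc.adj v hne⟩, (mem_cutE_iff (u := v) (v := c v) rfl).2 hv, ?_⟩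
    show v ∈ s(v, c v)
    simp
  have hXY : X = symmDiff Y (hM.toFinset : Set V) := by
    ext v
    rw [Set.mem_symmDiff]
    simp only [Set.Finite.coe_toFinset, mem_ofPred_eq, Y]
    tauto
  have hMe := even_finset hlf (T0 G c T') hM.toFinset (by
    intro v hv
    rw [Set.Finite.mem_toFinset] at hv
    apply T0_leaf hc hlf
    intro h
    apply hv
    rw [h])
  have hYX : Y = symmDiff X (hM.toFinset : Set V) := by
    ext v
    rw [Set.mem_symmDiff]
    simp only [Set.Finite.coe_toFinset, mem_ofPred_eq, Y]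
    tauto
  have hYfin : (cutE G Y).Finite := by
    rw [hYX, cutE_symmDiff]
    refine (hfin.union hMe.1).subset ?_
    intro e he
    rcases he with ⟨he, _⟩ | ⟨he, _⟩
    · exact Or.inl he
    · exact Or.inr he
  have hYe : Even (T0 G c T' ∩ cutE G Y).ncard := by
    rw [T0_closed hY]
    exact T1_closed hc hT' hY hYfin
  rw [hXY, cutE_symmDiff, inter_symmDiff]
  exact even_symmDiff (hYfin.inter_of_right _) (hMe.1.inter_of_right _) hYe hMe.2

end Pool.H66.TG
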