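import Pool.Agent.Helper66.TG.Conn

/-! # Theorem B: the data give a Hamilton circle of the line graph -/

open Set

namespace Pool.H66.TG

open Pool.H66.HC

universe u

variable {V : Type u} {G : SimpleGraph V} {c y : V → V} {D : Set V}
  {H : SimpleGraph (V × Fin 5)} {T : Set G.edgeSet}

theorem theoremB (hS : Sys G c y D H T) (hGc : G.Preconnected)
    (h3 : ∃ a b d : G.edgeSet, a ≠ b ∧ b ≠ d ∧ a ≠ d) : HasHamiltonCircle G.lineGraph := by
  classical
  have hcount := countable_edgeSet hS.lf hGc
  obtain ⟨e₀, _⟩ := id h3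
  have hne : Nonempty G.edgeSet := ⟨e₀⟩
  have hbex : ∀ e : G.edgeSet, ∃ x, x ∈ e.1 ∧ (c x = x ∨ x ∈ D) := by
    rintro ⟨e, he⟩
    induction e using Sym2.ind with
    | _ u w =>
      rcases hS.hedge u w he with h | h
      · exact ⟨u, by simp, h⟩
      · exact ⟨w, by simp, h⟩
  choose b hb hb' using hbex
  have hlkc : ∀ (F : Finset G.edgeSet) (e : G.edgeSet) (u v : V), (mgb T b).lk e u v →
      Out F u → Reach (mgb T b) (co F) u (c u) := by
    rintro F e u v (⟨h1, h2⟩ | ⟨_, h2, _⟩) ho
    · exact reach_c hS ho (Or.inr ⟨e, h1, by rw [h2]; simp⟩)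
    · refine reach_c hS ho (Or.inl ?_)
      rw [h2]
      exact hb' e
  apply tour (mgb T b) (r := c (b e₀))
  · -- local finiteness
    intro x
    refine (finite_incident hS.lf x).subset ?_
    rintro e ⟨v, hv⟩
    exact (mgb_mem hb hv).1
  · -- even cuts
    intro X hfin
    let Un : Set V := {v | c v ≠ v ∧ v ∉ D ∧ ∀ e ∈ T, v ∉ e.1}
    let X' : Set V := {v | (v ∉ Un ∧ v ∈ X) ∨ (v ∈ Un ∧ c v ∈ X)}
    have hX' : ∀ v, v ∉ Un → (v ∈ X' ↔ v ∈ X) := by
      intro v hv
      constructor
      · rintro (⟨_, h⟩ | ⟨h, _⟩)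
        · exact h
        · exact absurd h hv
      · intro h
        exact Or.inl ⟨hv, h⟩
    have hX'' : ∀ v, v ∈ Un → (v ∈ X' ↔ c v ∈ X) := by
      intro v hv
      constructor
      · rintro (⟨h, _⟩ | ⟨_, h⟩)
        · exact absurd hv h
        · exact h
      · intro h
        exact Or.inr ⟨hv, h⟩
    have hset : {e | e ∈ (univ : Set G.edgeSet) ∧ Cross (mgb T b) X e} = T ∩ cutE G X' := by
      ext e
      simp only [mem_univ, true_and, mem_ofPred_eq, mgb_cross]
      show e ∈ T ∧ e ∈ cutE G X ↔ e ∈ T ∧ e ∈ cutE G X'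
      refine and_congr_right fun heT => ?_
      obtain ⟨e, he⟩ := e
      induction e using Sym2.ind with
      | _ u w =>
        have hu : u ∉ Un := fun h => h.2.2 _ heT (by simp)
        have hw : w ∉ Un := fun h => h.2.2 _ heT (by simp)
        rw [mem_cutE_iff (u := u) (v := w) rfl, mem_cutE_iff (u := u) (v := w) rfl,
          hX' u hu, hX' w hw]
    rw [hset] at hfin ⊢
    apply hS.ev
    -- a `T`-finite cut is finite
    obtain ⟨L, hL1, hL2⟩ := ef' (b := b) hS hfin.toFinset
    have hnc : ∀ x z, Reach (mgb T b) (co hfin.toFinset) x z → (x ∈ X' ↔ z ∈ X') := by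
      have key : ∀ x z, Reach (mgb T b) (co hfin.toFinset) x z → x ∈ X' → z ∈ X' := by
        intro x z hr hx
        by_contra hz
        obtain ⟨e, he1, he2, he3⟩ := reach_cross hr hx hz
        exact he1 ((Set.Finite.mem_toFinset _).2 ⟨he2, he3⟩)
      exact fun x z hr => ⟨key x z hr, key z x hr.symm⟩
    have hc : ∀ v, v ∉ L → (v ∈ X' ↔ c v ∈ X') := by
      intro v hv
      by_cases hU : v ∈ Un
      · have h1 : c v ∉ Un := fun h => h.1 (hS.ctr.idem v)
        rw [hX'' v hU, hX' _ h1]
      · apply hnc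
        apply reach_c hS (hL1 v hv)
        by_cases h1 : c v = v
        · exact Or.inl (Or.inl h1)
        by_cases h2 : v ∈ D
        · exact Or.inl (Or.inr h2)
        right
        by_contra hcon
        push Not at hcon
        exact hU ⟨h1, h2, hcon⟩
    refine (finite_incident_set hS.lf L).subset ?_
    rintro e ⟨u, hu, v, hv, huv⟩
    by_contra hcon
    have huL : u ∉ L := fun h => hcon ⟨u, h, by rw [huv]; simp⟩
    have hvL : v ∉ L := fun h => hcon ⟨v, h, by rw [huv]; simp⟩
    have hadj : G.Adj u v := by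
      have := e.2
      rw [huv] at this
      exact this
    have hr := hL2 u v huL hvL (SimpleGraph.Adj.reachable
      (G := G.induce (L : Set V)ᶜ) (show G.Adj u v from hadj))
    have h1 := hnc _ _ hr
    rw [← hc u huL, ← hc v hvL] at h1
    exact hv (h1.1 hu)
  · -- connectedness
    intro e
    obtain ⟨u, v, huv⟩ := (mgb T b).ex e
    refine ⟨u, v, huv, ?_⟩
    have hO : ∀ v, Out (∅ : Finset G.edgeSet) v := by
      intro v
      refine ⟨?_, ?_⟩ <;> simp [vset]
    let φ : H →g H.induce ((∅ : Set (V × Fin 5))ᶜ) :=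
      { toFun := fun p => ⟨p, fun h => h⟩
        map_rel' := fun h => h }
    have h1 : (H.induce ((∅ : Set (V × Fin 5))ᶜ)).Reachable (φ (b e₀, 0)) (φ (u, 0)) :=
      (hS.good.conn (b e₀, 0) (u, 0)).map φ
    have h2 := walkH (b := b) hS (F := ∅) (K := ∅) (fun r _ => hO r.1) h1
    have h4 := hlkc ∅ e u v huv (hO u)
    exact (h2.trans h4.symm).mono (fun _ _ => mem_univ _)
  · -- the line graph contains the sharing relation
    rintro e e' ⟨hne, u, v, w, h1, h2⟩
    rw [SimpleGraph.lineGraph_adj_iff_exists]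
    exact ⟨hne, u, (mgb_mem hb h1).1, (mgb_mem hb h2).1⟩
  · exact lineGraph_lf hS.lf
  · -- end-faithfulness
    intro F
    obtain ⟨L, hL1, hL2⟩ := ef' (b := b) hS F
    refine ⟨(finite_incident_set hS.lf L).toFinset, ?_⟩
    intro e e' he he' hr x hx
    have hout : ∀ (f : G.edgeSet), f ∉ (finite_incident_set hS.lf L).toFinset →
        ∀ v ∈ f.1, v ∉ L := by
      intro f hf v hv hvL
      apply hf
      rw [Set.Finite.mem_toFinset]
      exact ⟨v, hvL, hv⟩
    -- vertices of the same edge are connected outside `L`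
    have hsame : ∀ (f : G.edgeSet) (hf : f ∉ (finite_incident_set hS.lf L).toFinset) (a b : V)
        (ha : a ∈ f.1) (hb : b ∈ f.1), (G.induce (L : Set V)ᶜ).Reachable
          ⟨a, hout f hf a ha⟩ ⟨b, hout f hf b hb⟩ := by
      intro f hf a b ha hb
      by_cases hab : a = b
      · subst hab; exact SimpleGraph.Reachable.refl _
      · apply SimpleGraph.Adj.reachable
        show G.Adj a b
        have h1 : f.1 = s(a, b) := by
          have := (Sym2.mem_and_mem_iff hab).1 ⟨ha, hb⟩
          exact this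
        have := f.2
        rw [h1] at this
        exact this
    have hkey : ∀ (f f' : (((finite_incident_set hS.lf L).toFinset : Set G.edgeSet)ᶜ :
        Set G.edgeSet)) (p : (G.lineGraph.induce
          ((finite_incident_set hS.lf L).toFinset : Set G.edgeSet)ᶜ).Walk f f') (a b : V)
        (ha : a ∈ f.1.1) (hb : b ∈ f'.1.1), (G.induce (L : Set V)ᶜ).Reachable
          ⟨a, hout f.1 f.2 a ha⟩ ⟨b, hout f'.1 f'.2 b hb⟩ := by
      intro f f' p
      induction p with
      | @nil f => intro a b ha hb; exact hsame f.1 f.2 a b ha hb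
      | @cons f g f' hfg p ih =>
        intro a b ha hb
        have hfg' : G.lineGraph.Adj f.1 g.1 := hfg
        rw [SimpleGraph.lineGraph_adj_iff_exists] at hfg'
        obtain ⟨_, c, hc, hc'⟩ := hfg'
        exact (hsame f.1 f.2 a c ha hc).trans (ih c b hc' hb)
    obtain ⟨p⟩ := hr
    obtain ⟨u, v, huv⟩ := (mgb T b).ex e
    obtain ⟨u', v', huv'⟩ := (mgb T b).ex e'
    have hu := (mgb_mem hb huv).1
    have hu' := (mgb_mem hb huv').1
    have h1 := hkey _ _ p u u' hu hu'
    have h2 := hL2 u u' (hout e he u hu) (hout e' he' u' hu') h1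
    have h4 := hlkc F e u v huv (hL1 u (hout e he u hu))
    have h5 := hlkc F e' u' v' huv' (hL1 u' (hout e' he' u' hu'))
    refine ⟨?_, u', v', huv', ((comp_reach hx huv).trans h4).trans (h2.trans h5.symm)⟩
    intro heF
    exact (hL1 u' (hout e' he' u' hu')).1 (mem_vset heF hu')
  · exact h3

end Pool.H66.TG
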